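import Mathlib

/-!
# The Lyapunov function as a function of three real variables
-/

set_option autoImplicit false

open Finset

namespace Pool.Agent.W5h98.Cy

/-- the Lyapunov function: `p` is the squared leading Fourier coefficient, `q` the sum of squares,
`N` the number of balls -/
noncomputable def Psi (K B C0 p q N : ℝ) : ℝ :=
  Real.log q - Real.log (p + K * N) + B * (K * N / (p + K * N)) + C0

theorem ana_point {K B C0 lam N p q l dl b : ℝ} (hK : 1 ≤ K) (hB : 0 ≤ B) (hl1 : 1 ≤ lam)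
    (hl2 : lam ≤ 2) (hN : 44 ≤ N) (hp : 0 ≤ p) (hq : 0 < q) (hq' : 0 < q + 2 * b + 2)
    (hl : l ^ 2 ≤ 4 * p) (hd : |dl| ≤ 2) :
    Psi K B C0 (p + 2 * l + lam ^ 2) (q + 2 * b + 2) (N + dl) ≤ Psi K B C0 p q N +
      (2 * b + 2) / q - (2 * l + lam ^ 2 + K * dl) / (p + K * N) +
      B * (K / (p + K * N)) * (dl - N * ((2 * l + lam ^ 2 + K * dl) / (p + K * N))) +
      2 * (32 * p + 2 * (4 + 2 * K) ^ 2) / (p + K * N) ^ 2 +
      B * (K / (p + K * N)) * ((2 * (4 * Real.sqrt p + 4 + 2 * K) +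
        4 * (32 * p + 2 * (4 + 2 * K) ^ 2) / K) / (p + K * N)) := by
  have hK0 : 0 < K := by linarith
  have hN0 : 0 < N := by linarith
  have hs := Real.sqrt_nonneg p
  have hss : Real.sqrt p ^ 2 = p := Real.sq_sqrt hp
  have hKN : 0 < K * N := mul_pos hK0 hN0
  set P := p + K * N with hP
  have hP0 : 0 < P := by linarith
  set dP := 2 * l + lam ^ 2 + K * dl with hdP
  set D := 4 * Real.sqrt p + 4 + 2 * K with hD
  set R := 2 * (4 + 2 * K) ^ 2 with hR
  have hd' := abs_le.1 hd
  have hl' : |l| ≤ 2 * Real.sqrt p := by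
    apply abs_le_of_sq_le_sq
    · nlinarith
    · positivity
  have hll := abs_le.1 hl'
  have hlam : lam ^ 2 ≤ 4 := by nlinarith
  have hlam0 : 0 ≤ lam ^ 2 := by positivity
  have hKd1 : K * dl ≤ 2 * K := by nlinarith
  have hKd2 : -(2 * K) ≤ K * dl := by nlinarith
  have hdD : |dP| ≤ D := by
    rw [abs_le]
    constructor <;> (rw [hdP, hD]; linarith [hll.1, hll.2])
  have hD0 : 0 ≤ D := by rw [hD]; positivity
  have hdR : dP ^ 2 ≤ 32 * p + R := by
    have h1 : (lam ^ 2 + K * dl) ^ 2 ≤ (4 + 2 * K) ^ 2 := by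
      apply sq_le_sq'
      · linarith
      · linarith
    have h2 : dP ^ 2 ≤ 2 * (2 * l) ^ 2 + 2 * (lam ^ 2 + K * dl) ^ 2 := by
      rw [hdP]
      nlinarith [sq_nonneg (2 * l - (lam ^ 2 + K * dl))]
    rw [hR]
    nlinarith
  have hDP : D ≤ P / 2 := by
    rw [hD, hP]
    nlinarith [sq_nonneg (Real.sqrt p - 8), mul_le_mul_of_nonneg_left hN hK0.le]
  set rho := dP / P with hrho
  have hrhoP : rho * P = dP := by rw [hrho]; field_simp
  have habs : |rho| ≤ D / P := by
    rw [hrho, abs_div, abs_of_pos hP0]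
    exact div_le_div_of_nonneg_right hdD hP0.le
  have hhalf : |rho| ≤ 1 / 2 := by
    refine habs.trans ?_
    rw [div_le_iff₀ hP0]
    linarith
  have hr := abs_le.1 hhalf
  have h1r : 0 < 1 + rho := by linarith [hr.1]
  have hP' : P + dP = P * (1 + rho) := by rw [← hrhoP]; ring
  have hP'0 : 0 < P + dP := by rw [hP']; positivity
  have hinv : P / (P + dP) ≤ 1 - rho + 2 * rho ^ 2 := by
    rw [hP', ← div_div, div_self hP0.ne', div_le_iff₀ h1r]
    nlinarith [sq_nonneg rho, hr.1]
  have hinv0 : 0 < P / (P + dP) := by positivity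
  have e1 : Real.log (q + 2 * b + 2) ≤ Real.log q + (2 * b + 2) / q := by
    have h1 := Real.log_le_sub_one_of_pos (div_pos hq' hq)
    rw [Real.log_div hq'.ne' hq.ne'] at h1
    have h2 : (q + 2 * b + 2) / q - 1 = (2 * b + 2) / q := by field_simp; ring
    linarith
  have e2 : Real.log P - Real.log (P + dP) ≤ -rho + 2 * rho ^ 2 := by
    have h1 := Real.log_le_sub_one_of_pos hinv0
    rw [Real.log_div hP0.ne' hP'0.ne'] at h1
    linarith
  have hrho2 : rho ^ 2 ≤ (32 * p + R) / P ^ 2 := by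
    rw [hrho, div_pow]
    exact div_le_div_of_nonneg_right hdR (by positivity)
  have eN : K * (N + dl) / (P + dP) ≤ K / P * (N + dl - N * rho +
      (2 * D + 4 * (32 * p + R) / K) / P) := by
    have h1 : K * (N + dl) / (P + dP) = K / P * ((N + dl) * (P / (P + dP))) := by
      field_simp
    rw [h1]
    apply mul_le_mul_of_nonneg_left _ (by positivity)
    have h2 : (N + dl) * (P / (P + dP)) ≤ (N + dl) * (1 - rho + 2 * rho ^ 2) :=
      mul_le_mul_of_nonneg_left hinv (by linarith [hd'.1])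
    have h3 : -(dl * rho) ≤ 2 * |rho| := by
      have h4 : |dl * rho| ≤ 2 * |rho| := by
        rw [abs_mul]; exact mul_le_mul_of_nonneg_right hd (abs_nonneg _)
      have := (abs_le.1 h4).1
      linarith
    have h4 : 2 * (N + dl) * rho ^ 2 ≤ 4 * N * rho ^ 2 :=
      mul_le_mul_of_nonneg_right (by linarith [hd'.2]) (sq_nonneg _)
    have h5 : 2 * |rho| ≤ 2 * D / P := by
      have : 2 * D / P = 2 * (D / P) := by ring
      rw [this]; linarith
    have h6 : 4 * N * rho ^ 2 ≤ 4 * (32 * p + R) / K / P := by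
      have h7 : 4 * N * rho ^ 2 ≤ 4 * N * ((32 * p + R) / P ^ 2) :=
        mul_le_mul_of_nonneg_left hrho2 (by positivity)
      have h8 : 4 * N * ((32 * p + R) / P ^ 2) = (4 * (32 * p + R) / K / P) * (K * N / P) := by
        field_simp
      have h9 : K * N / P ≤ 1 := by
        rw [div_le_one hP0]; linarith
      have h10 : 0 ≤ 4 * (32 * p + R) / K / P := by positivity
      rw [h8] at h7
      exact h7.trans (mul_le_of_le_one_right h10 h9)
    have h7 : (2 * D + 4 * (32 * p + R) / K) / P = 2 * D / P + 4 * (32 * p + R) / K / P := by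
      rw [add_div]
    have h8 : (N + dl) * (1 - rho + 2 * rho ^ 2) = N + dl - N * rho - dl * rho +
        2 * (N + dl) * rho ^ 2 := by ring
    rw [h7]
    linarith
  have eB := mul_le_mul_of_nonneg_left eN hB
  have e3 : p + 2 * l + lam ^ 2 + K * (N + dl) = P + dP := by rw [hP, hdP]; ring
  unfold Psi
  rw [e3, ← hP]
  have e4 : B * (K / P * (N + dl - N * rho + (2 * D + 4 * (32 * p + R) / K) / P)) =
      B * (K * N / P) + B * (K / P) * (dl - N * rho) +
      B * (K / P) * ((2 * D + 4 * (32 * p + R) / K) / P) := by ring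
  have e5 : 2 * rho ^ 2 ≤ 2 * (32 * p + R) / P ^ 2 := by
    have : 2 * (32 * p + R) / P ^ 2 = 2 * ((32 * p + R) / P ^ 2) := by ring
    rw [this]; linarith
  linarith

/-- the constants -/
theorem ana_final {k lam eta : ℝ} (hk : 0 < k) (hl1 : 1 < lam) (hl2 : lam ≤ 2) (heta : 0 < eta) :
    ∃ K B : ℝ, ∃ N₀ : ℕ, 1 ≤ K ∧ 0 ≤ B ∧ 44 ≤ N₀ ∧ ∀ N p q r : ℝ, (N₀ : ℝ) ≤ N → 0 ≤ p → 0 < q →
      N ^ 2 ≤ k * q → |r| ≤ 2 →
      (2 * ((lam - eta) * q / N) + 2) / q -
        (2 * (lam * p / N) + lam ^ 2 + K * r) / (p + K * N) +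
      B * (K / (p + K * N)) * (r - N * ((2 * (lam * p / N) + lam ^ 2 + K * r) / (p + K * N))) +
      2 * (32 * p + 2 * (4 + 2 * K) ^ 2) / (p + K * N) ^ 2 +
      B * (K / (p + K * N)) * ((2 * (4 * Real.sqrt p + 4 + 2 * K) +
        4 * (32 * p + 2 * (4 + 2 * K) ^ 2) / K) / (p + K * N)) ≤ - (eta / N) := by
  set nu := 2 * lam - 2 with hnu
  have hnu0 : 0 < nu := by linarith
  have hnu2 : nu ≤ 2 := by linarith
  set K : ℝ := 512 / nu with hK
  have hK1 : 256 ≤ K := by
    rw [hK, le_div_iff₀ hnu0]; linarith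
  have hK0 : 0 < K := by linarith
  have hKnu : K * nu = 512 := by rw [hK]; field_simp
  set R : ℝ := 2 * (4 + 2 * K) ^ 2 with hR
  have hR0 : 0 ≤ R := by positivity
  set C2 : ℝ := 6 * K + 64 + 2 * R with hC2
  have hC20 : 0 ≤ C2 := by positivity
  set C3 : ℝ := 64 / nu + 8 + 4 * K + 4 * R / K with hC3
  have hC30 : 0 ≤ C3 := by positivity
  set c1 : ℝ := nu / 4 with hc1
  have hc10 : 0 < c1 := by positivity
  obtain ⟨N₀, hN₀⟩ := exists_nat_ge (max 44 (max (2 * C3) (2 * k / eta)))
  have hn1 : (44 : ℝ) ≤ N₀ := (le_max_left _ _).trans hN₀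
  have hn2 : 2 * C3 ≤ N₀ := ((le_max_left _ _).trans (le_max_right _ _)).trans hN₀
  have hn3 : 2 * k / eta ≤ N₀ := ((le_max_right _ _).trans (le_max_right _ _)).trans hN₀
  refine ⟨K, C2 / c1, N₀, by linarith, by positivity, by exact_mod_cast hn1, ?_⟩
  intro N p q r hN hp hq hNq hr
  have hN44 : 44 ≤ N := hn1.trans hN
  have hN0 : 0 < N := by linarith
  have hr' := abs_le.1 hr
  set B := C2 / c1 with hB
  have hB0 : 0 ≤ B := by positivity
  have hBc : B * c1 = C2 := by rw [hB]; field_simp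
  have hKN : 0 < K * N := mul_pos hK0 hN0
  set P := p + K * N with hP
  have hP0 : 0 < P := by linarith
  have hP1 : 1 ≤ P := by nlinarith
  have hs := Real.sqrt_nonneg p
  have hss : Real.sqrt p ^ 2 = p := Real.sq_sqrt hp
  -- part 1
  have t1 : (2 * ((lam - eta) * q / N) + 2) / q ≤ 2 * (lam - eta) / N + 2 * k / N ^ 2 := by
    have h1 : (2 * ((lam - eta) * q / N) + 2) / q = 2 * (lam - eta) / N + 2 / q := by
      field_simp
    have h2 : 2 / q ≤ 2 * k / N ^ 2 := by
      rw [div_le_div_iff₀ hq (by positivity)]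
      linarith
    linarith
  have t2 : -((2 * (lam * p / N) + lam ^ 2 + K * r) / P) ≤ -(2 * lam / N) + (6 * K) / P := by
    have h1 : (2 * (lam * p / N) + lam ^ 2 + K * r) / P =
        2 * lam / N - 2 * lam * K / P + (lam ^ 2 + K * r) / P := by
      have : p = P - K * N := by rw [hP]; ring
      rw [this]
      field_simp
      ring
    rw [h1]
    have h2 : -((lam ^ 2 + K * r) / P) ≤ 2 * K / P := by
      rw [← neg_div]
      apply div_le_div_of_nonneg_right _ hP0.le
      have h6 := mul_le_mul_of_nonneg_left hr'.1 hK0.le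
      linarith [sq_nonneg lam]
    have h3 : 2 * lam * K / P ≤ 4 * K / P := by
      apply div_le_div_of_nonneg_right _ hP0.le
      have h6 := mul_le_mul_of_nonneg_right hl2 hK0.le
      linarith
    have h4 : 6 * K / P = 4 * K / P + 2 * K / P := by ring
    linarith
  have t3 : 2 * (32 * p + R) / P ^ 2 ≤ (64 + 2 * R) / P := by
    rw [div_le_div_iff₀ (by positivity) hP0]
    have h1 : p ≤ P := by linarith
    have h2 : P ≤ P ^ 2 := by nlinarith
    have h3 : 2 * (32 * p + R) ≤ (64 + 2 * R) * P := by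
      have h6 := mul_le_mul_of_nonneg_left hP1 hR0
      linarith
    calc 2 * (32 * p + R) * P ≤ ((64 + 2 * R) * P) * P := mul_le_mul_of_nonneg_right h3 hP0.le
      _ = (64 + 2 * R) * P ^ 2 := by ring
  -- part 2
  set T := (r - 2 * lam) * p - lam ^ 2 * N + (2 * (4 * Real.sqrt p + 4 + 2 * K) +
    4 * (32 * p + R) / K) with hT
  have hTe : B * (K / P) * (r - N * ((2 * (lam * p / N) + lam ^ 2 + K * r) / P)) +
      B * (K / P) * ((2 * (4 * Real.sqrt p + 4 + 2 * K) + 4 * (32 * p + R) / K) / P) =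
      B * K * T / P ^ 2 := by
    have h1 : r - N * ((2 * (lam * p / N) + lam ^ 2 + K * r) / P) =
        ((r - 2 * lam) * p - lam ^ 2 * N) / P := by
      rw [eq_div_iff hP0.ne']
      have : N * ((2 * (lam * p / N) + lam ^ 2 + K * r) / P) * P =
          2 * lam * p + N * lam ^ 2 + N * K * r := by
        field_simp
      rw [sub_mul, this, hP]
      ring
    rw [h1, hT]
    field_simp
  have hTb : T ≤ -(c1 * (p + N)) := by
    have h1 : 4 * (32 * p + R) / K = 128 / K * p + 4 * R / K := by ring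
    have h2 : 128 / K = nu / 4 := by
      rw [div_eq_div_iff hK0.ne' (by norm_num)]; linarith
    have h3 : 8 * Real.sqrt p ≤ nu / 4 * p + 64 / nu := by
      have h4 : nu / 4 * p + 64 / nu - 8 * Real.sqrt p =
          (nu * Real.sqrt p - 16) ^ 2 / (4 * nu) := by
        rw [eq_div_iff (by positivity)]
        field_simp
        rw [← hss]
        simp only [Real.sqrt_sq hs]
        ring
      have h5 : 0 ≤ (nu * Real.sqrt p - 16) ^ 2 / (4 * nu) := by positivity
      linarith
    have h4 : (r - 2 * lam) * p ≤ -(nu * p) := by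
      have h8 : r - 2 * lam ≤ -nu := by rw [hnu]; linarith [hr'.2]
      have h9 := mul_le_mul_of_nonneg_right h8 hp
      linarith
    have h5 : N ≤ lam ^ 2 * N := by
      have h8 : 1 ≤ lam ^ 2 := by nlinarith
      exact le_mul_of_one_le_left hN0.le h8
    have h6 : 2 * C3 ≤ N := hn2.trans hN
    rw [hT, h1, h2, hc1]
    have h7 : nu / 4 * (p + N) ≤ nu / 4 * p + N / 2 := by
      have h8 := mul_le_mul_of_nonneg_right hnu2 hN0.le
      linarith
    have h8 : 0 ≤ nu * p := mul_nonneg hnu0.le hp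
    have h9 : C3 = 64 / nu + 8 + 4 * K + 4 * R / K := hC3
    linarith
  have hfin : B * K * T / P ^ 2 ≤ -(C2 / P) := by
    have h1 : B * K * T ≤ -(C2 * (K * (p + N))) := by
      have h2 : B * K * T ≤ B * K * -(c1 * (p + N)) :=
        mul_le_mul_of_nonneg_left hTb (by positivity)
      have h3 : B * K * -(c1 * (p + N)) = -((B * c1) * (K * (p + N))) := by ring
      rw [h3, hBc] at h2
      exact h2
    have h2 : P ≤ K * (p + N) := by
      have h6 := le_mul_of_one_le_left hp (by linarith : 1 ≤ K)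
      rw [hP]
      linarith
    have h3 : B * K * T ≤ -(C2 * P) := by
      have h6 := mul_le_mul_of_nonneg_left h2 hC20
      linarith
    rw [← neg_div, div_le_div_iff₀ (by positivity) hP0]
    have h4 := mul_le_mul_of_nonneg_right h3 hP0.le
    have h5 : -(C2 * P) * P = -C2 * P ^ 2 := by ring
    linarith
  have hlast : 2 * k / N ^ 2 ≤ eta / N := by
    have h1 : 2 * k ≤ eta * N := by
      have := hn3.trans hN
      rw [div_le_iff₀ heta] at this
      linarith
    rw [div_le_div_iff₀ (by positivity) hN0]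
    have h2 := mul_le_mul_of_nonneg_right h1 hN0.le
    have h3 : eta * N * N = eta * N ^ 2 := by ring
    linarith
  have hsum : (64 + 2 * R) / P + 6 * K / P = C2 / P := by rw [hC2]; ring
  have e1 : 2 * (lam - eta) / N = 2 * lam / N - 2 * (eta / N) := by ring
  linarith

end Pool.Agent.W5h98.Cy
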