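import Pool.Agent.W5h98.Cy.Ana

/-!
# The drift of the Lyapunov function along the linearised dynamics
-/

set_option autoImplicit false

open Finset

namespace Pool.Agent.W5h98.Cy

variable {V : Type} [Fintype V]

/-- the leading Fourier coefficient -/
noncomputable def YY (w : V → ℂ) (y : V → ℝ) : ℂ := ∑ v, (y v : ℂ) * w v

/-- the Lyapunov function of a signed vector -/
noncomputable def PsiY (K B C0 : ℝ) (w : V → ℂ) (y : V → ℝ) : ℝ :=
  Psi K B C0 (Complex.normSq (YY w y)) (∑ v, y v ^ 2) (∑ v, |y v|)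

/-- the increment when a ball at `v` is selected -/
def inc [DecidableEq V] (nx : Equiv.Perm V) (t ε : V → ℝ) (v u : V) : ℝ :=
  (if u = nx v then t v * ε v else 0) + (if u = nx.symm v then t (nx.symm v) * ε v else 0)

theorem nsq_add (a b : ℂ) : Complex.normSq (a + b) =
    Complex.normSq a + 2 * (a * (starRingEnd ℂ) b).re + Complex.normSq b := by
  rw [Complex.normSq_add]; ring

theorem sum_abs_sq_le (y : V → ℝ) : (∑ v, |y v|) ^ 2 ≤ (Fintype.card V : ℝ) * ∑ v, y v ^ 2 := by
  have h := sq_sum_le_card_mul_sum_sq (s := (univ : Finset V)) (f := fun v => |y v|)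
  simpa [sq_abs, Finset.card_univ] using h

theorem YY_le (w : V → ℂ) (hw : ∀ v, Complex.normSq (w v) = 1) (y : V → ℝ) :
    Complex.normSq (YY w y) ≤ (∑ v, |y v|) ^ 2 := by
  rw [Complex.normSq_eq_norm_sq]
  apply pow_le_pow_left₀ (norm_nonneg _)
  unfold YY
  refine (norm_sum_le _ _).trans (sum_le_sum fun v _ => ?_)
  have h1 : ‖w v‖ = 1 := by
    have h2 := hw v
    rw [Complex.normSq_eq_norm_sq] at h2
    have h3 := norm_nonneg (w v)
    nlinarith
  rw [norm_mul, h1, mul_one, Complex.norm_real, Real.norm_eq_abs]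

theorem PsiY_nonneg [Nonempty V] (w : V → ℂ) (hw : ∀ v, Complex.normSq (w v) = 1) {K B : ℝ}
    (hK : 1 ≤ K) (hB : 0 ≤ B) {y : V → ℝ} (hy : 1 ≤ ∑ v, |y v|) :
    0 ≤ PsiY K B (Real.log ((1 + K) * Fintype.card V)) w y := by
  have h1 := sum_abs_sq_le y
  have h2 := YY_le w hw y
  unfold PsiY Psi
  set N := ∑ v, |y v| with hN
  set q := ∑ v, y v ^ 2 with hq
  set p := Complex.normSq (YY w y) with hp
  have hp0 : 0 ≤ p := Complex.normSq_nonneg _
  have hk : (0 : ℝ) < Fintype.card V := by exact_mod_cast Fintype.card_pos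
  have hK0 : 0 < K := by linarith
  have hN0 : 0 < N := by linarith
  have hq0 : 0 < q := by
    by_contra h
    push Not at h
    have : (Fintype.card V : ℝ) * q ≤ 0 := by nlinarith
    nlinarith
  have hP0 : 0 < p + K * N := by positivity
  have hP : p + K * N ≤ ((1 + K) * Fintype.card V) * q := by
    have h3 : N ≤ N ^ 2 := by nlinarith
    have h4 : K * N ≤ K * N ^ 2 := mul_le_mul_of_nonneg_left h3 hK0.le
    have h5 : (1 + K) * N ^ 2 ≤ (1 + K) * (Fintype.card V * q) :=
      mul_le_mul_of_nonneg_left h1 (by linarith)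
    linarith
  have h3 := Real.log_le_log hP0 hP
  rw [Real.log_mul (by positivity) hq0.ne'] at h3
  have h4 : 0 ≤ B * (K * N / (p + K * N)) := by positivity
  linarith

section
variable [DecidableEq V]

theorem inc_sum (nx : Equiv.Perm V) (t ε : V → ℝ) (v : V) (g : V → ℝ) :
    ∑ u, inc nx t ε v u * g u = ε v * (t v * g (nx v) + t (nx.symm v) * g (nx.symm v)) := by
  unfold inc
  simp only [add_mul, ite_mul, zero_mul, sum_add_distrib, sum_ite_eq', mem_univ, if_true]
  ring

theorem inc_sumC (nx : Equiv.Perm V) (t ε : V → ℝ) (v : V) (g : V → ℂ) :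
    ∑ u, (inc nx t ε v u : ℂ) * g u =
      (ε v : ℂ) * ((t v : ℂ) * g (nx v) + (t (nx.symm v) : ℂ) * g (nx.symm v)) := by
  unfold inc
  have h1 : ∀ (Q : Prop) [Decidable Q] (a : ℝ),
      ((if Q then a else 0 : ℝ) : ℂ) = if Q then (a : ℂ) else 0 := by
    intro Q _ a
    split_ifs <;> simp
  simp only [Complex.ofReal_add, h1, add_mul, ite_mul, zero_mul, sum_add_distrib, sum_ite_eq',
    mem_univ, if_true]
  push_cast
  ring

theorem inc_sq (nx : Equiv.Perm V) (hn2 : ∀ v, nx (nx v) ≠ v) (t ε : V → ℝ)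
    (ht : ∀ v, t v * t v = 1) (hε : ∀ v, ε v * ε v = 1) (v : V) :
    ∑ u, inc nx t ε v u ^ 2 = 2 := by
  have hab : nx.symm v ≠ nx v := by
    intro h
    apply hn2 v
    rw [← h, Equiv.apply_symm_apply]
  have e1 : ∑ u, inc nx t ε v u ^ 2 = ∑ u, inc nx t ε v u * inc nx t ε v u :=
    sum_congr rfl fun u _ => by ring
  rw [e1, inc_sum]
  unfold inc
  rw [if_pos rfl, if_neg hab.symm, if_neg hab, if_pos rfl]
  have h1 := ht v
  have h2 := ht (nx.symm v)
  have h3 := hε v
  linear_combination (t v * t v + t (nx.symm v) * t (nx.symm v)) * h3 + h1 + h2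

theorem drift [Nonempty V] (nx : Equiv.Perm V) (hn1 : ∀ v, nx v ≠ v) (hn2 : ∀ v, nx (nx v) ≠ v)
    (t : V → ℝ)
    (ht : ∀ v, t v * t v = 1) (w : V → ℂ) (hw : ∀ v, Complex.normSq (w v) = 1) (z : ℂ)
    (hz : Complex.normSq z = 1) (htw : ∀ e, (t e : ℂ) * w (nx e) = z * w e) {lam eta : ℝ}
    (hlam : lam = 2 * z.re) (hl1 : 1 < lam) (hl2 : lam ≤ 2) (heta : 0 < eta) :
    ∃ K B C0 : ℝ, ∃ N₀ : ℕ, (∀ y : V → ℝ, 1 ≤ ∑ v, |y v| → 0 ≤ PsiY K B C0 w y) ∧
      ∀ y ε : V → ℝ, (∀ v, ε v * ε v = 1) → (∀ v, y v = ε v * |y v|) →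
        (N₀ : ℝ) ≤ ∑ v, |y v| →
        2 * ∑ e, t e * (y e * y (nx e)) ≤ (lam - eta) * ∑ v, y v ^ 2 →
        ∑ v, |y v| / (∑ v, |y v|) * PsiY K B C0 w (fun u => y u + inc nx t ε v u) ≤
          PsiY K B C0 w y - eta / ∑ v, |y v| := by
  have hk : (0 : ℝ) < Fintype.card V := by exact_mod_cast Fintype.card_pos
  obtain ⟨K, B, N₀, hK, hB, hN₀, hfin⟩ := ana_final hk hl1 hl2 heta
  refine ⟨K, B, Real.log ((1 + K) * Fintype.card V), N₀,
    fun y hy => PsiY_nonneg w hw hK hB hy, ?_⟩
  intro y ε hε hy hN hspec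
  set C0 := Real.log ((1 + K) * Fintype.card V)
  set N := ∑ v, |y v| with hNdef
  set q := ∑ v, y v ^ 2 with hq
  set p := Complex.normSq (YY w y) with hp
  have hN44 : 44 ≤ N := by
    have : (44 : ℝ) ≤ N₀ := by exact_mod_cast hN₀
    linarith
  have hN0 : 0 < N := by linarith
  have hp0 : 0 ≤ p := Complex.normSq_nonneg _
  have hNq : N ^ 2 ≤ Fintype.card V * q := sum_abs_sq_le y
  have hq0 : 0 < q := by
    by_contra h
    push Not at h
    have : (Fintype.card V : ℝ) * q ≤ 0 := by nlinarith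
    nlinarith
  -- the quantities
  set b : V → ℝ := fun v => ε v * (t v * y (nx v) + t (nx.symm v) * y (nx.symm v)) with hb
  set l : V → ℝ := fun v => ε v * lam * (YY w y * (starRingEnd ℂ) (w v)).re with hl
  set dl : V → ℝ := fun v => (∑ u, |y u + inc nx t ε v u|) - N with hdl
  have hεy : ∀ v, |y v| * ε v = y v := fun v => by rw [mul_comm]; exact (hy v).symm
  -- leading coefficient
  have hY : ∀ v, YY w (fun u => y u + inc nx t ε v u) = YY w y + ((ε v * lam : ℝ) : ℂ) * w v := by
    intro v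
    have e1 : YY w (fun u => y u + inc nx t ε v u) = YY w y +
        ∑ u, (inc nx t ε v u : ℂ) * w u := by
      unfold YY
      rw [← sum_add_distrib]
      refine sum_congr rfl fun u _ => ?_
      push_cast; ring
    rw [e1, inc_sumC]
    have e2 : (t v : ℂ) * w (nx v) = z * w v := htw v
    have e3 : (t (nx.symm v) : ℂ) * w (nx.symm v) = (starRingEnd ℂ) z * w v := by
      have h1 := htw (nx.symm v)
      rw [Equiv.apply_symm_apply] at h1
      have h2 : (starRingEnd ℂ) z * z = 1 := by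
        rw [← Complex.normSq_eq_conj_mul_self, hz]; simp
      have h3 : (t (nx.symm v) : ℂ) * (t (nx.symm v) : ℂ) = 1 := by
        have := ht (nx.symm v)
        exact_mod_cast this
      calc (t (nx.symm v) : ℂ) * w (nx.symm v)
          = (t (nx.symm v) : ℂ) * (((starRingEnd ℂ) z * z) * w (nx.symm v)) := by rw [h2, one_mul]
        _ = (t (nx.symm v) : ℂ) * ((starRingEnd ℂ) z * (z * w (nx.symm v))) := by ring
        _ = (starRingEnd ℂ) z * ((t (nx.symm v) : ℂ) * (t (nx.symm v) : ℂ)) * w v := by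
            rw [← h1]; ring
        _ = _ := by rw [h3, mul_one]
    rw [e2, e3]
    have e4 : z + (starRingEnd ℂ) z = (lam : ℂ) := by
      rw [Complex.add_conj, hlam]
    push_cast
    linear_combination (ε v : ℂ) * w v * e4
  have hp' : ∀ v, Complex.normSq (YY w (fun u => y u + inc nx t ε v u)) =
      p + 2 * l v + lam ^ 2 := by
    intro v
    rw [hY v, nsq_add, Complex.normSq_mul, Complex.normSq_ofReal, hw v, map_mul,
      Complex.conj_ofReal, mul_one]
    have e1 : (YY w y * (((ε v * lam : ℝ) : ℂ) * (starRingEnd ℂ) (w v))).re = l v := by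
      have : YY w y * (((ε v * lam : ℝ) : ℂ) * (starRingEnd ℂ) (w v)) =
          ((ε v * lam : ℝ) : ℂ) * (YY w y * (starRingEnd ℂ) (w v)) := by ring
      rw [this, Complex.re_ofReal_mul]
    rw [e1]
    have := hε v
    linear_combination lam ^ 2 * this
  have hq' : ∀ v, ∑ u, (y u + inc nx t ε v u) ^ 2 = q + 2 * b v + 2 := by
    intro v
    have e1 : ∑ u, (y u + inc nx t ε v u) ^ 2 = q + 2 * ∑ u, inc nx t ε v u * y u +
        ∑ u, inc nx t ε v u ^ 2 := by
      rw [hq, mul_sum, ← sum_add_distrib, ← sum_add_distrib]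
      exact sum_congr rfl fun u _ => by ring
    rw [e1, inc_sum, inc_sq nx hn2 t ε ht hε]
  have hN' : ∀ v, ∑ u, |y u + inc nx t ε v u| = N + dl v := fun v => by
    simp only [hdl]; ring
  have hdl2 : ∀ v, |dl v| ≤ 2 := by
    intro v
    have h0 : ∀ u, |(|y u + inc nx t ε v u| - |y u|)| ≤ |inc nx t ε v u| := by
      intro u
      have := abs_abs_sub_abs_le_abs_sub (y u + inc nx t ε v u) (y u)
      rwa [add_sub_cancel_left] at this
    have h1 : dl v = ∑ u, (|y u + inc nx t ε v u| - |y u|) := by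
      simp only [hdl, hNdef, sum_sub_distrib]
    rw [h1]
    refine (abs_sum_le_sum_abs _ _).trans ((sum_le_sum fun u _ => h0 u).trans ?_)
    have habs : ∀ a : ℝ, a * a = 1 → |a| = 1 := by
      intro a ha
      have h2 : |a| * |a| = 1 := by rw [abs_mul_abs_self, ha]
      nlinarith [abs_nonneg a]
    have h2 : ∀ u, |inc nx t ε v u| ≤ (if u = nx v then 1 else 0) +
        (if u = nx.symm v then 1 else 0) := by
      intro u
      unfold inc
      refine (abs_add_le _ _).trans (add_le_add ?_ ?_)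
      · split_ifs
        · rw [abs_mul, habs _ (ht v), habs _ (hε v)]; norm_num
        · simp
      · split_ifs
        · rw [abs_mul, habs _ (ht _), habs _ (hε v)]; norm_num
        · simp
    refine (sum_le_sum fun u _ => h2 u).trans ?_
    rw [sum_add_distrib]
    simp only [sum_ite_eq', mem_univ, if_true]
    norm_num
  have hl4 : ∀ v, l v ^ 2 ≤ 4 * p := by
    intro v
    have h1 : (YY w y * (starRingEnd ℂ) (w v)).re ^ 2 ≤ p := by
      have h2 : (YY w y * (starRingEnd ℂ) (w v)).re ^ 2 ≤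
          Complex.normSq (YY w y * (starRingEnd ℂ) (w v)) := by
        rw [Complex.normSq_apply]
        nlinarith [sq_nonneg (YY w y * (starRingEnd ℂ) (w v)).im]
      rw [Complex.normSq_mul, Complex.normSq_conj, hw v, mul_one] at h2
      exact h2
    have h3 : l v ^ 2 = lam ^ 2 * (YY w y * (starRingEnd ℂ) (w v)).re ^ 2 := by
      simp only [hl]
      have := hε v
      linear_combination (lam ^ 2 * (YY w y * (starRingEnd ℂ) (w v)).re ^ 2) * this
    rw [h3]
    have h4 : lam ^ 2 ≤ 4 := by nlinarith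
    have h5 : 0 ≤ (YY w y * (starRingEnd ℂ) (w v)).re ^ 2 := sq_nonneg _
    nlinarith
  -- expectations
  set ww : V → ℝ := fun v => |y v| / N with hww
  have hww0 : ∀ v, 0 ≤ ww v := fun v => div_nonneg (abs_nonneg _) hN0.le
  have hww1 : ∑ v, ww v = 1 := by
    simp only [hww]
    rw [← sum_div, ← hNdef, div_self hN0.ne']
  have hEb : ∑ v, ww v * b v ≤ (lam - eta) * q / N := by
    have e1 : ∑ v, ww v * b v = (2 * ∑ e, t e * (y e * y (nx e))) / N := by
      have e2 : ∀ v, ww v * b v = (t v * (y v * y (nx v)) +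
          t (nx.symm v) * (y (nx.symm v) * y (nx (nx.symm v)))) / N := by
        intro v
        simp only [hww, hb]
        rw [Equiv.apply_symm_apply]
        have := hεy v
        field_simp
        linear_combination (t v * y (nx v) + t (nx.symm v) * y (nx.symm v)) * this
      rw [sum_congr rfl fun v _ => e2 v, ← sum_div, sum_add_distrib,
        Equiv.sum_comp nx.symm (fun e => t e * (y e * y (nx e)))]
      ring
    rw [e1]
    exact div_le_div_of_nonneg_right hspec hN0.le
  have hEl : ∑ v, ww v * l v = lam * p / N := by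
    have e1 : ∀ v, ww v * l v = lam / N * (YY w y * (starRingEnd ℂ) ((y v : ℂ) * w v)).re := by
      intro v
      have h2 : YY w y * (starRingEnd ℂ) ((y v : ℂ) * w v) =
          ((y v : ℝ) : ℂ) * (YY w y * (starRingEnd ℂ) (w v)) := by
        rw [map_mul, Complex.conj_ofReal]; ring
      rw [h2, Complex.re_ofReal_mul]
      simp only [hww, hl]
      have h3 : |y v| / N * (ε v * lam * (YY w y * (starRingEnd ℂ) (w v)).re) =
          lam / N * ((|y v| * ε v) * (YY w y * (starRingEnd ℂ) (w v)).re) := by ring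
      rw [h3, hεy v]
    rw [sum_congr rfl fun v _ => e1 v, ← mul_sum, ← Complex.re_sum, ← mul_sum, ← map_sum]
    have e2 : YY w y * (starRingEnd ℂ) (∑ v, (y v : ℂ) * w v) = ((p : ℝ) : ℂ) := by
      rw [hp]
      exact Complex.mul_conj (YY w y)
    rw [e2, Complex.ofReal_re]
    ring
  have hEd : |∑ v, ww v * dl v| ≤ 2 := by
    refine (abs_sum_le_sum_abs _ _).trans ?_
    have : ∀ v, |ww v * dl v| ≤ ww v * 2 := by
      intro v
      rw [abs_mul, abs_of_nonneg (hww0 v)]
      exact mul_le_mul_of_nonneg_left (hdl2 v) (hww0 v)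
    refine (sum_le_sum fun v _ => this v).trans ?_
    rw [← sum_mul, hww1, one_mul]
  have hF := hfin N p q (∑ v, ww v * dl v) hN hp0 hq0 hNq hEd
  -- the pointwise inequality
  set P := p + K * N with hP
  have hP0 : 0 < P := by positivity
  set E : ℝ := 2 * (32 * p + 2 * (4 + 2 * K) ^ 2) / P ^ 2 +
      B * (K / P) * ((2 * (4 * Real.sqrt p + 4 + 2 * K) +
        4 * (32 * p + 2 * (4 + 2 * K) ^ 2) / K) / P) with hE
  have hpt : ∀ v, ww v * PsiY K B C0 w (fun u => y u + inc nx t ε v u) ≤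
      ww v * ((PsiY K B C0 w y + 2 / q - lam ^ 2 / P - B * (K / P) * (N * (lam ^ 2 / P)) + E) +
        2 / q * b v + (-(2 / P) - B * (K / P) * (N * (2 / P))) * l v +
        (-(K / P) + B * (K / P) * (1 - N * (K / P))) * dl v) := by
    intro v
    rcases eq_or_ne (y v) 0 with h0 | h0
    · have : ww v = 0 := by simp only [hww]; rw [h0]; simp
      rw [this, zero_mul, zero_mul]
    apply mul_le_mul_of_nonneg_left _ (hww0 v)
    have hqv : 0 < q + 2 * b v + 2 := by
      rw [← hq' v]
      have h1 : inc nx t ε v v = 0 := by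
        unfold inc
        rw [if_neg (fun h => hn1 v h.symm), if_neg, add_zero]
        intro h
        apply hn1 v
        nth_rewrite 1 [h]
        rw [Equiv.apply_symm_apply]
      have h2 : (y v + inc nx t ε v v) ^ 2 ≤ ∑ u, (y u + inc nx t ε v u) ^ 2 :=
        single_le_sum (f := fun u => (y u + inc nx t ε v u) ^ 2) (fun u _ => sq_nonneg _)
          (mem_univ v)
      rw [h1, add_zero] at h2
      have h3 : 0 < y v ^ 2 := by positivity
      linarith
    have h := ana_point (C0 := C0) (lam := lam) hK hB hl1.le hl2 hN44 hp0 hq0 hqv (hl4 v) (hdl2 v)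
    rw [← hP] at h
    have e0 : PsiY K B C0 w (fun u => y u + inc nx t ε v u) =
        Psi K B C0 (p + 2 * l v + lam ^ 2) (q + 2 * b v + 2) (N + dl v) := by
      unfold PsiY
      rw [hp' v, hq' v, hN' v]
    have e00 : PsiY K B C0 w y = Psi K B C0 p q N := rfl
    rw [e0, e00]
    refine h.trans (le_of_eq ?_)
    rw [hE]
    ring
  refine (sum_le_sum fun v _ => hpt v).trans ?_
  have hlin : ∀ A0 A1 A2 A3 : ℝ, ∑ v, ww v * (A0 + A1 * b v + A2 * l v + A3 * dl v) =
      A0 + A1 * ∑ v, ww v * b v + A2 * ∑ v, ww v * l v + A3 * ∑ v, ww v * dl v := by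
    intro A0 A1 A2 A3
    have : ∀ v, ww v * (A0 + A1 * b v + A2 * l v + A3 * dl v) =
        ww v * A0 + A1 * (ww v * b v) + A2 * (ww v * l v) + A3 * (ww v * dl v) := fun v => by ring
    rw [sum_congr rfl fun v _ => this v, sum_add_distrib, sum_add_distrib, sum_add_distrib,
      ← sum_mul, hww1, one_mul, ← mul_sum, ← mul_sum, ← mul_sum]
  rw [hlin, hEl]
  have h2q : 2 / q * ∑ v, ww v * b v ≤ 2 / q * ((lam - eta) * q / N) :=
    mul_le_mul_of_nonneg_left hEb (by positivity)
  set r := ∑ v, ww v * dl v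
  have e9 : (2 * ((lam - eta) * q / N) + 2) / q -
        (2 * (lam * p / N) + lam ^ 2 + K * r) / P +
      B * (K / P) * (r - N * ((2 * (lam * p / N) + lam ^ 2 + K * r) / P)) + E =
      (2 / q - lam ^ 2 / P - B * (K / P) * (N * (lam ^ 2 / P)) + E) +
        2 / q * ((lam - eta) * q / N) +
        (-(2 / P) - B * (K / P) * (N * (2 / P))) * (lam * p / N) +
        (-(K / P) + B * (K / P) * (1 - N * (K / P))) * r := by ring
  rw [hE] at e9
  rw [hE]
  linarith

end

end Pool.Agent.W5h98.Cy
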