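import Pool.Agent.W5h98.Cy.Main

/-!
# No coexistence on cycles: the stages
-/

set_option autoImplicit false

open Finset

namespace Pool.Agent.W5h98.Cy

open Pool.Agent.TH996.Urn

variable {n s : ℕ}

/-- the parameters of the leading wave -/
theorem params (n m : ℕ) (hn : 3 ≤ n) (hm : 2 ≤ m) : ∃ (z : ℂ) (lam eta : ℝ) (M : ℕ),
    Complex.normSq z = 1 ∧ z ^ (n + 1) = ((((-1) ^ m : ℤˣ) : ℤ) : ℂ) ∧ lam = 2 * z.re ∧
    1 < lam ∧ lam ≤ 2 ∧ 0 < eta ∧ 1 ≤ M ∧ M ≤ m ∧ M ≤ 3 ∧
    2 * Real.cos (Real.pi / ((n + 3 - M : ℕ) : ℝ)) ≤ lam - eta := by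
  have hpi := Real.pi_pos
  have hn' : (3 : ℝ) ≤ n := by exact_mod_cast hn
  rcases Nat.even_or_odd m with he | ho
  · refine ⟨1, 2, 2 - 2 * Real.cos (Real.pi / ((n + 3 - 2 : ℕ) : ℝ)), 2, by simp, ?_, by simp,
      by norm_num, le_rfl, ?_, by norm_num, hm, by norm_num, by linarith⟩
    · rw [he.neg_one_pow]; simp
    · have e1 : ((n + 3 - 2 : ℕ) : ℝ) = n + 1 := by
        have : n + 3 - 2 = n + 1 := by omega
        rw [this]; push_cast; ring
      rw [e1]
      have h1 : Real.cos (Real.pi / (n + 1)) < Real.cos 0 := by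
        apply Real.cos_lt_cos_of_nonneg_of_le_pi le_rfl
        · rw [div_le_iff₀ (by positivity)]; nlinarith
        · positivity
      rw [Real.cos_zero] at h1
      linarith
  · have hm3 : 3 ≤ m := by
      rcases ho with ⟨k, hk⟩; omega
    set th : ℝ := Real.pi / (n + 1) with hth
    have hth0 : 0 < th := by positivity
    have hth3 : th < Real.pi / 3 := by
      rw [hth]
      apply div_lt_div_of_pos_left hpi (by norm_num)
      linarith
    have hlam1 : 1 < 2 * Real.cos th := by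
      have h1 : Real.cos (Real.pi / 3) < Real.cos th := by
        apply Real.cos_lt_cos_of_nonneg_of_le_pi hth0.le _ hth3
        linarith
      rw [Real.cos_pi_div_three] at h1
      linarith
    refine ⟨Complex.exp (th * Complex.I), 2 * Real.cos th,
      2 * Real.cos th - 2 * Real.cos (Real.pi / ((n + 3 - 3 : ℕ) : ℝ)), 3, ?_, ?_, ?_, hlam1, ?_,
      ?_, by norm_num, hm3, le_rfl, by linarith⟩
    · rw [Complex.normSq_eq_norm_sq, Complex.norm_exp_ofReal_mul_I]; norm_num
    · rw [← Complex.exp_nat_mul, ho.neg_one_pow]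
      have : ((n + 1 : ℕ) : ℂ) * (th * Complex.I) = Real.pi * Complex.I := by
        rw [hth]
        push_cast
        have : (n : ℂ) + 1 ≠ 0 := by exact_mod_cast Nat.succ_ne_zero n
        field_simp
      rw [this, Complex.exp_pi_mul_I]
      simp
    · rw [Complex.exp_ofReal_mul_I_re]
    · have := Real.cos_le_one th
      linarith
    · have e1 : ((n + 3 - 3 : ℕ) : ℝ) = n := by
        rw [Nat.add_sub_cancel]
      rw [e1]
      have h1 : Real.cos (Real.pi / n) < Real.cos th := by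
        apply Real.cos_lt_cos_of_nonneg_of_le_pi hth0.le
        · rw [div_le_iff₀ (by linarith)]; nlinarith
        · rw [hth]
          apply div_lt_div_of_pos_left hpi (by linarith)
          linarith
      linarith

theorem usqR (a : ℤˣ) : ((a : ℤ) : ℝ) * ((a : ℤ) : ℝ) = 1 := by
  have h1 : ((a * a : ℤˣ) : ℤ) = 1 := by rw [usq]; rfl
  rw [Units.val_mul] at h1
  exact_mod_cast h1

theorem spectral {x : Config (Fin (n + 1)) s} {L : Fin (n + 1) → Fin s}
    {σ t : Fin (n + 1) → ℤˣ} (hr : Rel (nxt n) t L σ) {M : ℕ} (hM1 : 1 ≤ M)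
    (hM : M ≤ ch (nxt n) L) :
    2 * ∑ e, ((t e : ℤ) : ℝ) * ((((σ e : ℤ) : ℝ) * cnt x e) *
      (((σ (nxt n e) : ℤ) : ℝ) * cnt x (nxt n e))) ≤
      2 * Real.cos (Real.pi / ((n + 3 - M : ℕ) : ℝ)) *
        ∑ e, (((σ e : ℤ) : ℝ) * cnt x e) ^ 2 := by
  classical
  have hcard : (univ.filter fun e => ¬ L e = L (nxt n e)).card = ch (nxt n) L := by
    unfold ch dif
    rw [card_filter]
    refine sum_congr rfl fun e _ => ?_
    by_cases h : L e = L (nxt n e)
    · rw [if_pos h, if_neg (fun h' => h' h)]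
    · rw [if_neg h, if_pos h]
  obtain ⟨d, hd1, hd2, hd3⟩ := exists_dist (fun e => ¬ L e = L (nxt n e)) M hM1
    (by rw [hcard]; exact hM)
  have h := spec (nxt n) (fun e => ¬ L e = L (nxt n e)) d (n + 3 - M) hd1
    (fun v => by have := hd2 v; omega) (fun e he => hd3 e he) (fun e => (cnt x e : ℝ))
  have hsq : ∑ e, (((σ e : ℤ) : ℝ) * cnt x e) ^ 2 = ∑ e, (cnt x e : ℝ) ^ 2 := by
    refine sum_congr rfl fun e _ => ?_
    have := usqR (σ e)
    linear_combination (cnt x e : ℝ) ^ 2 * this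
  rw [hsq]
  refine le_trans ?_ h
  rw [mul_sum]
  refine sum_le_sum fun e _ => ?_
  have h1 : ((σ (nxt n e) : ℤ) : ℝ) = ((sg (L e) (L (nxt n e)) : ℤ) : ℝ) * ((t e : ℤ) : ℝ) *
      ((σ e : ℤ) : ℝ) := by
    rw [hr e]; push_cast; ring
  have h2 := usqR (t e)
  have h3 := usqR (σ e)
  have h4 : ((t e : ℤ) : ℝ) * ((((σ e : ℤ) : ℝ) * cnt x e) *
      (((σ (nxt n e) : ℤ) : ℝ) * cnt x (nxt n e))) =
      ((sg (L e) (L (nxt n e)) : ℤ) : ℝ) * (cnt x e * cnt x (nxt n e)) := by
    rw [h1]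
    linear_combination (((sg (L e) (L (nxt n e)) : ℤ) : ℝ) * (cnt x e * cnt x (nxt n e))) *
      (((σ e : ℤ) : ℝ) * ((σ e : ℤ) : ℝ) * h2 + h3)
  rw [h4]
  have h5 : (0 : ℝ) ≤ cnt x e * cnt x (nxt n e) := by positivity
  by_cases hc : L e = L (nxt n e)
  · have : sg (L e) (L (nxt n e)) = 1 := by unfold sg; rw [if_pos hc]
    rw [this, if_neg (fun h' => h' hc)]
    simp
  · have : sg (L e) (L (nxt n e)) = -1 := by unfold sg; rw [if_neg hc]
    rw [this, if_pos hc]
    push_cast
    linarith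

/-- the configurations which have a labelling with at most `m` changes -/
def Bset (n s m : ℕ) (x : Config (Fin (n + 1)) s) : Prop :=
  ∃ L, Lab x L ∧ ch (nxt n) L ≤ m

theorem total_eq (x : Config (Fin (n + 1)) s) (σ : Fin (n + 1) → ℤˣ) :
    ∑ v, |((σ v : ℤ) : ℝ) * cnt x v| = (total x : ℝ) := by
  unfold total
  push_cast
  refine sum_congr rfl fun v _ => ?_
  have h1 : |((σ v : ℤ) : ℝ)| = 1 := by
    rcases Int.units_eq_one_or (σ v) with h | h <;> rw [h] <;> simp
  rw [abs_mul, h1, one_mul, abs_of_nonneg (Nat.cast_nonneg _)]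
  unfold cnt
  push_cast
  rfl

theorem stage_m (G : SimpleGraph (Fin (n + 1))) (hG : G.Connected)
    (hadj : ∀ a b, G.Adj a b ↔ b = nxt n a ∨ a = nxt n b) (hn : 3 ≤ n) {m : ℕ} (hm : 2 ≤ m)
    (hA : ∀ x, Good x → Bset n s (m - 1) x → hlim G x = 0) :
    ∀ x, Good x → Bset n s m x → hlim G x = 0 := by
  classical
  have hn1 : ∀ v : Fin (n + 1), nxt n v ≠ v := by
    intro v h
    rw [nxt_apply] at h
    have h1 : (1 : Fin (n + 1)) = 0 := by
      have := congrArg (fun y => y - v) h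
      simpa using this
    have h2 := congrArg Fin.val h1
    rw [Fin.val_one', Fin.val_zero, Nat.mod_eq_of_lt (by omega)] at h2
    omega
  have hn2 : ∀ v : Fin (n + 1), nxt n (nxt n v) ≠ v := by
    intro v h
    rw [nxt_apply, nxt_apply] at h
    have h1 : (1 + 1 : Fin (n + 1)) = 0 := by
      have := congrArg (fun y => y - v) h
      rw [add_assoc] at this
      simpa using this
    have h2 := congrArg Fin.val h1
    rw [Fin.val_add, Fin.val_one', Fin.val_zero, Nat.mod_eq_of_lt (a := 1) (by omega),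
      Nat.mod_eq_of_lt (by omega)] at h2
    omega
  obtain ⟨z, lam, eta, M, hz, hzn, hlam, hl1, hl2, heta, hM1, hMm, hM3, hcos⟩ := params n m hn hm
  set a : ℤˣ := (-1) ^ m with ha
  set tw := twist n a with htw
  set tR : Fin (n + 1) → ℝ := fun e => ((tw e : ℤ) : ℝ) with htR
  obtain ⟨K, B, C0, N₀, hpos, hdrift⟩ := drift (nxt n) hn1 hn2 tR (fun v => usqR (tw v))
    (wave n z) (fun v => by unfold wave; rw [map_pow, hz, one_pow]) z hz
    (fun e => wave_rel hzn e) hlam hl1 hl2 heta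
  -- signed vectors
  let yv : Config (Fin (n + 1)) s → (Fin (n + 1) → ℤˣ) → Fin (n + 1) → ℝ :=
    fun x σ v => ((σ v : ℤ) : ℝ) * cnt x v
  let S : Config (Fin (n + 1)) s → Finset ((Fin (n + 1) → Fin s) × (Fin (n + 1) → ℤˣ)) :=
    fun x => univ.filter fun Lσ => Lab x Lσ.1 ∧ ch (nxt n) Lσ.1 = m ∧ Rel (nxt n) tw Lσ.1 Lσ.2
  let F : Config (Fin (n + 1)) s → (Fin (n + 1) → Fin s) × (Fin (n + 1) → ℤˣ) → ℝ :=
    fun x Lσ => PsiY K B C0 (wave n z) (yv x Lσ.2)
  let f : Config (Fin (n + 1)) s → ℝ := fun x =>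
    if h : (S x).Nonempty ∧ Good x ∧ ¬ Bset n s (m - 1) x then (S x).inf' h.1 (F x) else 0
  have hFpos : ∀ x, Good x → ∀ Lσ, 0 ≤ F x Lσ := by
    intro x hx Lσ
    apply hpos
    rw [total_eq]
    exact_mod_cast hx.2
  have hf0 : ∀ x, 0 ≤ f x := by
    intro x
    show 0 ≤ (if h : (S x).Nonempty ∧ Good x ∧ ¬ Bset n s (m - 1) x then
      (S x).inf' h.1 (F x) else 0)
    split_ifs with h
    · rw [Finset.le_inf'_iff]
      exact fun Lσ _ => hFpos x h.2.1 Lσ
    · exact le_rfl
  have hfle : ∀ x, ∀ Lσ ∈ S x, 0 ≤ F x Lσ → f x ≤ F x Lσ := by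
    intro x Lσ hL h0
    show (if h : (S x).Nonempty ∧ Good x ∧ ¬ Bset n s (m - 1) x then
      (S x).inf' h.1 (F x) else 0) ≤ _
    split_ifs with h
    · exact Finset.inf'_le _ hL
    · exact h0
  have hfA : ∀ x, Bset n s (m - 1) x → f x = 0 := by
    intro x hx
    show (if h : (S x).Nonempty ∧ Good x ∧ ¬ Bset n s (m - 1) x then
      (S x).inf' h.1 (F x) else 0) = 0
    rw [dif_neg]
    exact fun h => h.2.2 hx
  refine stage G hG (Bset n s (m - 1)) (Bset n s m) ?_ hA f hf0 eta heta N₀ ?_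
  · rintro x hx ⟨L, hL, hLm⟩ v c hv
    obtain ⟨L', hL', hle, -⟩ := step_sign G (nxt n) tw hadj hn1 hn2 hx.1 hL hv
    exact ⟨L', hL', hle.trans hLm⟩
  intro x hx hBx hAx hNx
  -- a minimal signing
  have hSne : (S x).Nonempty := by
    obtain ⟨L, hL, hLm⟩ := hBx
    have hLe : ch (nxt n) L = m := by
      by_contra hne
      exact hAx ⟨L, hL, by omega⟩
    obtain ⟨σ, hσ⟩ := exists_sign L
    rw [hLe] at hσ
    exact ⟨(L, σ), mem_filter.2 ⟨mem_univ _, hL, hLe, hσ⟩⟩
  obtain ⟨⟨L, σ⟩, hmem, hmin⟩ := Finset.exists_mem_eq_inf' hSne (F x)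
  have hfx : f x = F x (L, σ) := by
    show (if h : (S x).Nonempty ∧ Good x ∧ ¬ Bset n s (m - 1) x then
      (S x).inf' h.1 (F x) else 0) = _
    rw [dif_pos ⟨hSne, hx, hAx⟩]
    exact hmin
  obtain ⟨-, hL, hLm, hrel⟩ := mem_filter.1 hmem
  simp only at hL hLm hrel
  set y := yv x σ with hy
  set ε : Fin (n + 1) → ℝ := fun v => ((σ v : ℤ) : ℝ) with hε
  have htot : ∑ v, |y v| = (total x : ℝ) := total_eq x σ
  have htot0 : (0 : ℝ) < total x := by exact_mod_cast hx.2
  have habs : ∀ v, |y v| = (cnt x v : ℝ) := by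
    intro v
    show |((σ v : ℤ) : ℝ) * cnt x v| = _
    have h1 : |((σ v : ℤ) : ℝ)| = 1 := by
      rcases Int.units_eq_one_or (σ v) with h | h <;> rw [h] <;> simp
    rw [abs_mul, h1, one_mul, abs_of_nonneg (Nat.cast_nonneg _)]
  have hD := hdrift y ε (fun v => usqR (σ v)) (fun v => by rw [habs v])
    (by rw [htot]; exact_mod_cast hNx) (by
      have h1 := spectral (x := x) hrel hM1 (by rw [hLm]; exact hMm)
      refine h1.trans ?_
      apply mul_le_mul_of_nonneg_right hcos
      exact sum_nonneg fun v _ => sq_nonneg _)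
  rw [htot] at hD
  -- one step
  have hstep : ∀ v c, 0 < x v c → f (step G x v c) ≤
      PsiY K B C0 (wave n z) (fun u => y u + inc (nxt n) tR ε v u) := by
    intro v c hv
    obtain ⟨L', hL', hle, hσ'⟩ := step_sign G (nxt n) tw hadj hn1 hn2 hx.1 hL hv
    by_cases hA' : Bset n s (m - 1) (step G x v c)
    · rw [hfA _ hA']
      apply hpos
      have h1 : inc (nxt n) tR ε v v = 0 := by
        unfold inc
        rw [if_neg (fun h => hn1 v h.symm), if_neg, add_zero]
        intro h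
        apply hn1 v
        nth_rewrite 1 [h]
        rw [Equiv.apply_symm_apply]
      have h2 : |y v + inc (nxt n) tR ε v v| ≤ ∑ u, |y u + inc (nxt n) tR ε v u| :=
        single_le_sum (f := fun u => |y u + inc (nxt n) tR ε v u|) (fun u _ => abs_nonneg _)
          (mem_univ v)
      rw [h1, add_zero, habs v] at h2
      have h3 : 0 < cnt x v := (cnt_pos_iff x v).2 ⟨c, hv⟩
      have h4 : (1 : ℝ) ≤ cnt x v := by exact_mod_cast h3
      linarith
    · have heq : ch (nxt n) L' = ch (nxt n) L := by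
        by_contra hne
        exact hA' ⟨L', hL', by omega⟩
      obtain ⟨σ', hr', hval⟩ := hσ' heq σ hrel
      have hmem' : (L', σ') ∈ S (step G x v c) :=
        mem_filter.2 ⟨mem_univ _, hL', by rw [heq, hLm], hr'⟩
      have hgood := step_good G hx hv
      have h1 := hfle _ _ hmem' (hFpos _ hgood _)
      refine h1.trans (le_of_eq ?_)
      show PsiY K B C0 (wave n z) (fun u => ((σ' u : ℤ) : ℝ) * cnt (step G x v c) u) = _
      congr 1
      funext u
      rw [hval u]
      rfl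
  rw [hfx]
  have hPop : Pop G f x ≤ ∑ v, |y v| / (total x : ℝ) *
      PsiY K B C0 (wave n z) (fun u => y u + inc (nxt n) tR ε v u) := by
    unfold Pop
    refine sum_le_sum fun v _ => ?_
    have h1 : ∑ c, (x v c : ℝ) / (total x : ℝ) * f (step G x v c) ≤
        ∑ c, (x v c : ℝ) / (total x : ℝ) *
          PsiY K B C0 (wave n z) (fun u => y u + inc (nxt n) tR ε v u) := by
      refine sum_le_sum fun c _ => ?_
      rcases Nat.eq_zero_or_pos (x v c) with h0 | h0
      · rw [h0]; simp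
      · exact mul_le_mul_of_nonneg_left (hstep v c h0) (by positivity)
    refine h1.trans (le_of_eq ?_)
    rw [← sum_mul, ← sum_div, habs v]
    unfold cnt
    push_cast
    rfl
  exact hPop.trans hD

theorem main (G : SimpleGraph (Fin (n + 1))) (hG : G.Connected)
    (hadj : ∀ a b, G.Adj a b ↔ b = nxt n a ∨ a = nxt n b) (hn : 3 ≤ n) : InClass G s := by
  have small : ∀ x : Config (Fin (n + 1)) s, Good x → Bset n s 1 x → hlim G x = 0 := by
    rintro x hx ⟨L, hL, hLm⟩
    have hc := const_of_ch_le_one (nxt n) L hLm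
    have hall : ∀ i, L i = L 0 := by
      intro i
      induction i using Fin.induction with
      | zero => rfl
      | succ i ih =>
        rw [← ih, ← hc i.castSucc, nxt_apply, Fin.coeSucc_eq_succ]
    apply crit_hlim_mono
    intro u v c d hu hv
    rw [← hL u c hu, ← hL v d hv, hall u, hall v]
  have key : ∀ m, ∀ x : Config (Fin (n + 1)) s, Good x → Bset n s (m + 1) x → hlim G x = 0 := by
    intro m
    induction m with
    | zero => exact small
    | succ m ih =>
      exact stage_m G hG hadj hn (by omega) ih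
  apply inClass_of_hlim
  intro x hx
  obtain ⟨L, hL⟩ := exists_lab hx
  exact key (ch (nxt n) L) x hx ⟨L, hL, by omega⟩

end Pool.Agent.W5h98.Cy
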