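import Pool.Agent.TH996.Urn.Basic

/-!
# Labels and signs on a cycle

`nx` is the successor on the cycle, `t e` is the sign of the edge from `e` to `nx e`. A labelling
`L` gives a colour to each vertex, also to the empty ones; signs `σ` alternate where the labels
change.
-/

set_option autoImplicit false

open Finset

namespace Pool.Agent.W5h98.Cy

open Pool.Agent.TH996.Urn

variable {V : Type} [Fintype V] {s : ℕ}

/-- sign of a pair of colours -/
def sg (c d : Fin s) : ℤˣ := if c = d then 1 else -1

/-- indicator of two different colours -/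
def dif (c d : Fin s) : ℕ := if c = d then 0 else 1

/-- number of changes of the labelling along the cycle -/
def ch (nx : Equiv.Perm V) (L : V → Fin s) : ℕ := ∑ e, dif (L e) (L (nx e))

/-- the labelling agrees with the colours of the balls -/
def Lab (x : Config V s) (L : V → Fin s) : Prop := ∀ v c, 0 < x v c → L v = c

/-- the signs alternate at the changes of the labelling -/
def Rel (nx : Equiv.Perm V) (t : V → ℤˣ) (L : V → Fin s) (σ : V → ℤˣ) : Prop :=
  ∀ e, σ (nx e) = sg (L e) (L (nx e)) * t e * σ e

/-- number of balls at `v` -/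
def cnt (x : Config V s) (v : V) : ℕ := ∑ c, x v c

theorem sg_comm (c d : Fin s) : sg c d = sg d c := by
  unfold sg; simp only [eq_comm]

theorem sg_self (c : Fin s) : sg c c = 1 := by unfold sg; simp

theorem sg_eq (c d : Fin s) : sg c d = (-1) ^ dif c d := by
  unfold sg dif; split_ifs <;> simp

theorem dif_comm (c d : Fin s) : dif c d = dif d c := by
  unfold dif; simp only [eq_comm]

theorem dif_self (c : Fin s) : dif c c = 0 := by unfold dif; simp

theorem dif_tri (a b c : Fin s) : dif a c ≤ dif a b + dif b c := by
  unfold dif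
  split_ifs with h1 h2 h3 h4 h5 h6 <;> simp_all

theorem dif_zero {a b : Fin s} (h : dif a b = 0) : a = b := by
  unfold dif at h; by_contra h1; simp [h1] at h

theorem usq (a : ℤˣ) : a * a = 1 := Int.units_mul_self a

section
variable [DecidableEq V]

theorem ch_split (nx : Equiv.Perm V) (L : V → Fin s) {u : V} (hu : nx u ≠ u) :
    ch nx L = dif (L (nx.symm u)) (L u) + dif (L u) (L (nx u)) +
      ∑ e ∈ (univ.erase u).erase (nx.symm u), dif (L e) (L (nx e)) := by
  unfold ch
  have h1 : nx.symm u ≠ u := fun h => hu (by rw [← h, Equiv.apply_symm_apply, h])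
  rw [← add_sum_erase univ _ (mem_univ u), ← add_sum_erase (univ.erase u) _
    (mem_erase.2 ⟨h1, mem_univ (nx.symm u)⟩), Equiv.apply_symm_apply]
  ring

theorem ch_update (nx : Equiv.Perm V) (L : V → Fin s) {u : V} (hu : nx u ≠ u) (c : Fin s) :
    ch nx (Function.update L u c) + dif (L (nx.symm u)) (L u) + dif (L u) (L (nx u)) =
      ch nx L + dif (L (nx.symm u)) c + dif c (L (nx u)) := by
  have h1 : nx.symm u ≠ u := fun h => hu (by rw [← h, Equiv.apply_symm_apply, h])
  rw [ch_split nx L hu, ch_split nx (Function.update L u c) hu]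
  have e1 : ∑ e ∈ (univ.erase u).erase (nx.symm u),
      dif (Function.update L u c e) (Function.update L u c (nx e)) =
      ∑ e ∈ (univ.erase u).erase (nx.symm u), dif (L e) (L (nx e)) := by
    refine sum_congr rfl fun e he => ?_
    have h2 : e ≠ nx.symm u := ne_of_mem_erase he
    have h3 : e ≠ u := ne_of_mem_erase (mem_of_mem_erase he)
    have h4 : nx e ≠ u := fun h => h2 (by rw [← h, Equiv.symm_apply_apply])
    rw [Function.update_of_ne h3, Function.update_of_ne h4]
  rw [e1, Function.update_self, Function.update_of_ne h1, Function.update_of_ne hu]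
  ring

theorem ch_update_le (nx : Equiv.Perm V) (L : V → Fin s) {u : V} (hu : nx u ≠ u) {c : Fin s}
    (hc : c = L (nx.symm u) ∨ c = L (nx u)) : ch nx (Function.update L u c) ≤ ch nx L := by
  have h := ch_update nx L hu c
  have h2 := dif_tri (L (nx.symm u)) (L u) (L (nx u))
  rcases hc with rfl | rfl
  · rw [dif_self] at h; omega
  · rw [dif_self] at h; omega

theorem rel_update_prev (nx : Equiv.Perm V) (t : V → ℤˣ) {L : V → Fin s} {σ : V → ℤˣ}
    (hr : Rel nx t L σ) {u : V} (hu : nx u ≠ u) {c : Fin s} (hc : c = L (nx.symm u))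
    (he : ch nx (Function.update L u c) = ch nx L) :
    Rel nx t (Function.update L u c) (Function.update σ u (t (nx.symm u) * σ (nx.symm u))) := by
  have h1 : nx.symm u ≠ u := fun h => hu (by rw [← h, Equiv.apply_symm_apply, h])
  have h := ch_update nx L hu c
  have hs : sg c (L (nx u)) = sg (L (nx.symm u)) (L u) * sg (L u) (L (nx u)) := by
    rw [sg_eq, sg_eq, sg_eq, ← pow_add]
    congr 1
    rw [hc, dif_self] at h
    rw [hc] at he ⊢
    omega
  have r1 : σ u = sg (L (nx.symm u)) (L u) * t (nx.symm u) * σ (nx.symm u) := by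
    have := hr (nx.symm u)
    rwa [Equiv.apply_symm_apply] at this
  intro e
  by_cases e1 : e = u
  · subst e1
    rw [Function.update_of_ne hu, Function.update_self, Function.update_of_ne hu,
      Function.update_self, hs, hr e, r1]
    ac_rfl
  by_cases e2 : e = nx.symm u
  · subst e2
    rw [Equiv.apply_symm_apply, Function.update_self, Function.update_of_ne h1,
      Function.update_self, Function.update_of_ne h1, hc, sg_self, one_mul]
  · have h4 : nx e ≠ u := fun h => e2 (by rw [← h, Equiv.symm_apply_apply])
    rw [Function.update_of_ne h4, Function.update_of_ne e1, Function.update_of_ne h4,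
      Function.update_of_ne e1]
    exact hr e

theorem rel_update_next (nx : Equiv.Perm V) (t : V → ℤˣ) {L : V → Fin s} {σ : V → ℤˣ}
    (hr : Rel nx t L σ) {u : V} (hu : nx u ≠ u) {c : Fin s} (hc : c = L (nx u))
    (he : ch nx (Function.update L u c) = ch nx L) :
    Rel nx t (Function.update L u c) (Function.update σ u (t u * σ (nx u))) := by
  have h1 : nx.symm u ≠ u := fun h => hu (by rw [← h, Equiv.apply_symm_apply, h])
  have h := ch_update nx L hu c
  have hs : sg (L (nx.symm u)) c = sg (L (nx.symm u)) (L u) * sg (L u) (L (nx u)) := by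
    rw [sg_eq, sg_eq, sg_eq, ← pow_add]
    congr 1
    rw [hc, dif_self] at h
    rw [hc] at he ⊢
    omega
  have r1 : σ u = sg (L (nx.symm u)) (L u) * t (nx.symm u) * σ (nx.symm u) := by
    have := hr (nx.symm u)
    rwa [Equiv.apply_symm_apply] at this
  intro e
  by_cases e1 : e = u
  · subst e1
    rw [Function.update_of_ne hu, Function.update_self, Function.update_of_ne hu,
      Function.update_self, hc, sg_self, one_mul, ← mul_assoc, usq, one_mul]
  by_cases e2 : e = nx.symm u
  · subst e2
    rw [Equiv.apply_symm_apply, Function.update_self, Function.update_of_ne h1,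
      Function.update_self, Function.update_of_ne h1, hs, hr u, r1]
    have h5 := usq (t u)
    calc t u * (sg (L u) (L (nx u)) * t u * (sg (L (nx.symm u)) (L u) * t (nx.symm u) *
          σ (nx.symm u))) = (t u * t u) * (sg (L u) (L (nx u)) *
          (sg (L (nx.symm u)) (L u) * t (nx.symm u) * σ (nx.symm u))) := by ac_rfl
      _ = _ := by rw [h5, one_mul]; ac_rfl
  · have h4 : nx e ≠ u := fun h => e2 (by rw [← h, Equiv.symm_apply_apply])
    rw [Function.update_of_ne h4, Function.update_of_ne e1, Function.update_of_ne h4,
      Function.update_of_ne e1]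
    exact hr e

end

theorem cnt_pos_iff (x : Config V s) (u : V) : 0 < cnt x u ↔ ∃ c, 0 < x u c := by
  unfold cnt
  rw [Finset.sum_pos_iff]
  simp

theorem cnt_single {x : Config V s} (hx : UrnsMono x) {u : V} {e : Fin s} (he : 0 < x u e) :
    ∀ d, x u d = if d = e then x u e else 0 := by
  intro d
  by_cases h : d = e
  · rw [if_pos h, h]
  · rw [if_neg h]
    by_contra h0
    exact h (hx u d e (Nat.pos_of_ne_zero h0) he)

theorem cnt_eq {x : Config V s} (hx : UrnsMono x) {u : V} {e : Fin s} (he : 0 < x u e) :
    cnt x u = x u e := by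
  unfold cnt
  rw [sum_congr rfl fun d _ => cnt_single hx he d]
  simp

/-- the effect of a step at a neighbour -/
theorem step_nb (G : SimpleGraph V) {x : Config V s} (hx : UrnsMono x) {v u : V}
    (ha : G.Adj v u) (c : Fin s) {b : Fin s} (hb : ∀ d, 0 < x u d → b = d) :
    (cnt x u = 0 → cnt (step G x v c) u = 1 ∧ ∀ d, 0 < step G x v c u d → c = d) ∧
    (cnt x u ≠ 0 → (cnt (step G x v c) u : ℤ) = cnt x u + sg b c ∧
      ∀ d, 0 < step G x v c u d → b = d) := by
  classical
  have hst : ∀ d, step G x v c u d = if ∃ e, e ≠ c ∧ 0 < x u e then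
      (if d = c then x u d else x u d - 1) else (if d = c then x u d + 1 else x u d) := by
    intro d
    unfold step
    rw [if_pos ha]
  constructor
  · intro h0
    have h1 : ∀ d, x u d = 0 := by
      intro d
      by_contra h
      have := (cnt_pos_iff x u).2 ⟨d, Nat.pos_of_ne_zero h⟩
      omega
    have h2 : ∀ d, step G x v c u d = if d = c then 1 else 0 := by
      intro d
      rw [hst d, if_neg]
      · rw [h1 d]
      · rintro ⟨e, -, he⟩
        rw [h1 e] at he
        exact lt_irrefl _ he
    constructor
    · unfold cnt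
      rw [sum_congr rfl fun d _ => h2 d]
      simp
    · intro d hd
      rw [h2 d] at hd
      by_contra h
      rw [if_neg (fun h' => h h'.symm)] at hd
      exact lt_irrefl _ hd
  · intro h0
    obtain ⟨e, he⟩ := (cnt_pos_iff x u).1 (Nat.pos_of_ne_zero h0)
    have hbe : b = e := hb e he
    subst hbe
    have hs := cnt_single hx he
    rw [cnt_eq hx he]
    by_cases hbc : b = c
    · subst hbc
      have h2 : ∀ d, step G x v b u d = if d = b then x u b + 1 else 0 := by
        intro d
        rw [hst d, if_neg]
        · by_cases hd : d = b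
          · rw [if_pos hd, if_pos hd, hd]
          · rw [if_neg hd, if_neg hd, hs d, if_neg hd]
        · rintro ⟨e, he1, he2⟩
          rw [hs e, if_neg he1] at he2
          exact lt_irrefl _ he2
      constructor
      · unfold cnt
        rw [sum_congr rfl fun d _ => h2 d, sg_self]
        simp
      · intro d hd
        rw [h2 d] at hd
        by_contra h
        rw [if_neg (fun h' => h h'.symm)] at hd
        exact lt_irrefl _ hd
    · have h2 : ∀ d, step G x v c u d = if d = b then x u b - 1 else 0 := by
        intro d
        rw [hst d, if_pos ⟨b, hbc, he⟩]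
        by_cases hd : d = b
        · rw [if_pos hd, hd, if_neg hbc]
        · rw [if_neg hd, hs d, if_neg hd]
          simp
      constructor
      · unfold cnt
        rw [sum_congr rfl fun d _ => h2 d]
        have : sg b c = -1 := by unfold sg; rw [if_neg hbc]
        rw [this]
        simp only [sum_ite_eq', mem_univ, if_true]
        push_cast [Nat.cast_sub (Nat.succ_le_of_lt he)]
        ring
      · intro d hd
        rw [h2 d] at hd
        by_contra h
        rw [if_neg (fun h' => h h'.symm)] at hd
        exact lt_irrefl _ hd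

/-- a step does not increase the number of changes; if it is constant the signed numbers of balls
change linearly -/
theorem step_sign [DecidableEq V] (G : SimpleGraph V) (nx : Equiv.Perm V) (t : V → ℤˣ)
    (hadj : ∀ a b, G.Adj a b ↔ b = nx a ∨ a = nx b) (hn1 : ∀ v, nx v ≠ v)
    (hn2 : ∀ v, nx (nx v) ≠ v) {x : Config V s} (hx : UrnsMono x) {L : V → Fin s}
    (hL : Lab x L) {v : V} {c : Fin s} (hv : 0 < x v c) :
    ∃ L', Lab (step G x v c) L' ∧ ch nx L' ≤ ch nx L ∧
      (ch nx L' = ch nx L → ∀ σ, Rel nx t L σ → ∃ σ', Rel nx t L' σ' ∧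
        ∀ u, ((σ' u : ℤ) : ℝ) * cnt (step G x v c) u = ((σ u : ℤ) : ℝ) * cnt x u +
          ((if u = nx v then ((t v : ℤ) : ℝ) * ((σ v : ℤ) : ℝ) else 0) +
          (if u = nx.symm v then ((t (nx.symm v) : ℤ) : ℝ) * ((σ v : ℤ) : ℝ) else 0))) := by
  classical
  set a := nx v with ha
  set b := nx.symm v with hb
  have hbv : nx b = v := by rw [hb, Equiv.apply_symm_apply]
  have hav : nx.symm a = v := by rw [ha, Equiv.symm_apply_apply]
  have hab : a ≠ b := by
    intro h
    have := hn2 v
    rw [← ha, h, hbv] at this
    exact this rfl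
  have hva : v ≠ a := fun h => hn1 v h.symm
  have hvb : v ≠ b := by
    intro h
    rw [← h] at hbv
    exact hn1 v hbv
  have hLv : L v = c := hL v c hv
  have adja : G.Adj v a := (hadj v a).2 (Or.inl rfl)
  have adjb : G.Adj v b := (hadj v b).2 (Or.inr hbv.symm)
  have na : nx a ≠ a := hn1 a
  have nb : nx b ≠ b := hn1 b
  -- labels after the first hit
  set L1 : V → Fin s := if cnt x a = 0 then Function.update L a c else L with hL1
  set L2 : V → Fin s := if cnt x b = 0 then Function.update L1 b c else L1 with hL2
  have L1v : L1 v = c := by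
    rw [hL1]; split_ifs
    · rw [Function.update_of_ne hva, hLv]
    · exact hLv
  have L1b : L1 b = L b := by
    rw [hL1]; split_ifs
    · rw [Function.update_of_ne hab.symm]
    · rfl
  have c1 : ch nx L1 ≤ ch nx L := by
    rw [hL1]; split_ifs
    · exact ch_update_le nx L na (Or.inl (by rw [hav, hLv]))
    · exact le_rfl
  have c2 : ch nx L2 ≤ ch nx L1 := by
    rw [hL2]; split_ifs
    · exact ch_update_le nx L1 nb (Or.inr (by rw [hbv, L1v]))
    · exact le_rfl
  have L2a : L2 a = L1 a := by
    rw [hL2]; split_ifs
    · rw [Function.update_of_ne hab]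
    · rfl
  have stepo : ∀ u, u ≠ a → u ≠ b → ∀ d, step G x v c u d = x u d := by
    intro u h1 h2 d
    apply step_of_not_adj
    rw [hadj]
    rintro (h | h)
    · exact h1 h
    · exact h2 (by rw [hb, h, Equiv.symm_apply_apply])
  have sa := step_nb G hx adja c (b := L a) (fun d hd => hL a d hd)
  have sb := step_nb G hx adjb c (b := L b) (fun d hd => hL b d hd)
  refine ⟨L2, ?_, c2.trans c1, ?_⟩
  · intro u d hd
    by_cases hua : u = a
    · subst hua
      rw [L2a, hL1]
      split_ifs with h0
      · rw [Function.update_self]; exact (sa.1 h0).2 d hd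
      · exact (sa.2 h0).2 d hd
    by_cases hub : u = b
    · subst hub
      rw [hL2]
      split_ifs with h0
      · rw [Function.update_self]; exact (sb.1 h0).2 d hd
      · rw [L1b]; exact (sb.2 h0).2 d hd
    · rw [stepo u hua hub d] at hd
      rw [hL2]
      have e1 : L1 u = L u := by
        rw [hL1]; split_ifs
        · rw [Function.update_of_ne hua]
        · rfl
      split_ifs
      · rw [Function.update_of_ne hub, e1]; exact hL u d hd
      · rw [e1]; exact hL u d hd
  · intro heq σ hσ
    have heq1 : ch nx L1 = ch nx L := by omega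
    have heq2 : ch nx L2 = ch nx L1 := by omega
    set σ1 : V → ℤˣ := if cnt x a = 0 then Function.update σ a (t v * σ v) else σ with hσ1
    set σ2 : V → ℤˣ := if cnt x b = 0 then Function.update σ1 b (t b * σ1 v) else σ1 with hσ2
    have σ1v : σ1 v = σ v := by
      rw [hσ1]; split_ifs
      · rw [Function.update_of_ne hva]
      · rfl
    have σ1b : σ1 b = σ b := by
      rw [hσ1]; split_ifs
      · rw [Function.update_of_ne hab.symm]
      · rfl
    have σ2a : σ2 a = σ1 a := by
      rw [hσ2]; split_ifs
      · rw [Function.update_of_ne hab]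
      · rfl
    have r1 : Rel nx t L1 σ1 := by
      by_cases h0 : cnt x a = 0
      · have h := rel_update_prev nx t hσ na (c := c) (by rw [hav, hLv])
          (by rw [hL1, if_pos h0] at heq1; exact heq1)
        rw [hav] at h
        rw [hL1, hσ1, if_pos h0, if_pos h0]
        exact h
      · rw [hL1, hσ1, if_neg h0, if_neg h0]; exact hσ
    have r2 : Rel nx t L2 σ2 := by
      by_cases h0 : cnt x b = 0
      · have h := rel_update_next nx t r1 nb (c := c) (by rw [hbv, L1v])
          (by rw [hL2, if_pos h0] at heq2; exact heq2)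
        rw [hbv] at h
        rw [hL2, hσ2, if_pos h0, if_pos h0]
        exact h
      · rw [hL2, hσ2, if_neg h0, if_neg h0]; exact r1
    refine ⟨σ2, r2, fun u => ?_⟩
    have toR : ∀ z : ℤˣ, ((z : ℤ) : ℝ) * ((z : ℤ) : ℝ) = 1 := by
      intro z
      have h1 : ((z * z : ℤˣ) : ℤ) = 1 := by rw [usq]; rfl
      rw [Units.val_mul] at h1
      exact_mod_cast h1
    by_cases hua : u = a
    · subst hua
      rw [if_pos rfl, if_neg hab, add_zero, σ2a, hσ1]
      by_cases h0 : cnt x a = 0
      · rw [if_pos h0, Function.update_self, (sa.1 h0).1, h0]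
        push_cast; ring
      · rw [if_neg h0]
        have h1 := (sa.2 h0).1
        have h2 : (cnt (step G x v c) a : ℝ) = cnt x a + ((sg (L a) c : ℤ) : ℝ) := by
          exact_mod_cast h1
        have h3 := hσ v
        rw [← ha, hLv, sg_comm] at h3
        rw [h2, h3]
        push_cast
        have := toR (sg (L a) c)
        linear_combination (((t v : ℤ) : ℝ) * ((σ v : ℤ) : ℝ)) * this
    by_cases hub : u = b
    · subst hub
      rw [if_neg hua, if_pos rfl, zero_add, hσ2]
      by_cases h0 : cnt x b = 0
      · rw [if_pos h0, Function.update_self, (sb.1 h0).1, h0, σ1v]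
        push_cast; ring
      · rw [if_neg h0, σ1b]
        have h1 := (sb.2 h0).1
        have h2 : (cnt (step G x v c) b : ℝ) = cnt x b + ((sg (L b) c : ℤ) : ℝ) := by
          exact_mod_cast h1
        have h3 := hσ b
        rw [hbv, hLv] at h3
        have h4 : ((σ v : ℤ) : ℝ) = ((sg (L b) c : ℤ) : ℝ) * ((t b : ℤ) : ℝ) *
            ((σ b : ℤ) : ℝ) := by rw [h3]; push_cast; ring
        rw [h2, h4]
        have e1 := toR (sg (L b) c)
        have e2 := toR (t b)
        linear_combination (-(((sg (L b) c : ℤ) : ℝ) * ((σ b : ℤ) : ℝ))) * e2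
    · rw [if_neg hua, if_neg hub, add_zero, add_zero]
      have e1 : σ2 u = σ u := by
        rw [hσ2]
        have e2 : σ1 u = σ u := by
          rw [hσ1]; split_ifs
          · rw [Function.update_of_ne hua]
          · rfl
        split_ifs
        · rw [Function.update_of_ne hub, e2]
        · exact e2
      have e3 : cnt (step G x v c) u = cnt x u := by
        unfold cnt
        exact sum_congr rfl fun d _ => stepo u hua hub d
      rw [e1, e3]

end Pool.Agent.W5h98.Cy
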