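import Mathlib

/-!
# A spectral inequality on the cycle
-/

set_option autoImplicit false

open Finset

namespace Pool.Agent.W5h98.Cy

theorem spec_phi_nonneg {D j : ℕ} (hD : 0 < D) (hj : j ≤ D) : 0 ≤ Real.sin (Real.pi * j / D) := by
  apply Real.sin_nonneg_of_nonneg_of_le_pi
  · positivity
  · have hD' : (0 : ℝ) < D := by exact_mod_cast hD
    have hj' : (j : ℝ) ≤ D := by exact_mod_cast hj
    rw [div_le_iff₀ hD']
    exact mul_le_mul_of_nonneg_left hj' Real.pi_pos.le

theorem spec_phi_pos {D j : ℕ} (h1 : 1 ≤ j) (hj : j + 1 ≤ D) : 0 < Real.sin (Real.pi * j / D) := by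
  have hD' : (0 : ℝ) < D := by exact_mod_cast (by omega : 0 < D)
  have hj' : (j : ℝ) < D := by exact_mod_cast (by omega : j < D)
  have h0 : (0 : ℝ) < j := by exact_mod_cast (by omega : 0 < j)
  apply Real.sin_pos_of_pos_of_lt_pi
  · have := Real.pi_pos
    positivity
  · rw [div_lt_iff₀ hD']
    exact mul_lt_mul_of_pos_left hj' Real.pi_pos

/-- the weights -/
theorem spec {V : Type} [Fintype V] (nx : Equiv.Perm V) (C : V → Prop) [DecidablePred C]
    (d : V → ℕ) (D : ℕ) (h1 : ∀ v, 1 ≤ d v) (h2 : ∀ v, d v + 1 ≤ D)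
    (h3 : ∀ e, ¬ C e → d (nx e) = d e + 1) (z : V → ℝ) :
    ∑ e, (if C e then 0 else 2 * (z e * z (nx e))) ≤
      2 * Real.cos (Real.pi / D) * ∑ v, z v ^ 2 := by
  set φ : ℕ → ℝ := fun j => Real.sin (Real.pi * j / D) with hφ
  have pos : ∀ v, 0 < φ (d v) := fun v => spec_phi_pos (h1 v) (h2 v)
  have up : ∀ v, 0 ≤ φ (d v + 1) := fun v => spec_phi_nonneg (by have := h2 v; omega) (h2 v)
  have dn : ∀ v, 0 ≤ φ (d v - 1) := fun v =>
    spec_phi_nonneg (by have := h2 v; omega) (by have := h2 v; omega)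
  have key : ∀ v, φ (d v + 1) / φ (d v) + φ (d v - 1) / φ (d v) = 2 * Real.cos (Real.pi / D) := by
    intro v
    rw [← add_div, div_eq_iff (pos v).ne']
    simp only [hφ]
    have e1 : Real.pi * ((d v + 1 : ℕ) : ℝ) / D = Real.pi * (d v) / D + Real.pi / D := by
      push_cast; ring
    have e2 : Real.pi * ((d v - 1 : ℕ) : ℝ) / D = Real.pi * (d v) / D - Real.pi / D := by
      rw [Nat.cast_sub (h1 v)]; push_cast; ring
    rw [e1, e2, Real.sin_add, Real.sin_sub]
    ring
  have term : ∀ e, (if C e then 0 else 2 * (z e * z (nx e))) ≤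
      φ (d e + 1) / φ (d e) * z e ^ 2 + φ (d (nx e) - 1) / φ (d (nx e)) * z (nx e) ^ 2 := by
    intro e
    have g1 : 0 ≤ φ (d e + 1) / φ (d e) := div_nonneg (up e) (pos e).le
    have g2 : 0 ≤ φ (d (nx e) - 1) / φ (d (nx e)) := div_nonneg (dn _) (pos _).le
    split_ifs with hc
    · positivity
    · have hd := h3 e hc
      have p1 := pos e
      have p2 := pos (nx e)
      rw [hd] at p2 ⊢
      rw [Nat.add_sub_cancel]
      set a := φ (d e)
      set b := φ (d e + 1)
      have : b / a * z e ^ 2 + a / b * z (nx e) ^ 2 - 2 * (z e * z (nx e)) =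
          (b * z e - a * z (nx e)) ^ 2 / (a * b) := by
        field_simp
        ring
      have h5 : 0 ≤ (b * z e - a * z (nx e)) ^ 2 / (a * b) := by positivity
      linarith
  calc ∑ e, (if C e then 0 else 2 * (z e * z (nx e)))
      ≤ ∑ e, (φ (d e + 1) / φ (d e) * z e ^ 2 +
          φ (d (nx e) - 1) / φ (d (nx e)) * z (nx e) ^ 2) := sum_le_sum fun e _ => term e
    _ = ∑ v, (φ (d v + 1) / φ (d v) * z v ^ 2 + φ (d v - 1) / φ (d v) * z v ^ 2) := by
        rw [sum_add_distrib, sum_add_distrib]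
        congr 1
        exact Equiv.sum_comp nx (fun v => φ (d v - 1) / φ (d v) * z v ^ 2)
    _ = _ := by
        rw [mul_sum]
        refine sum_congr rfl fun v _ => ?_
        rw [← add_mul, key v]

open Fin.CommRing in
/-- the distance to the last change -/
theorem exists_dist {n : ℕ} (C : Fin (n + 1) → Prop) [DecidablePred C] (M : ℕ) (hM : 1 ≤ M)
    (hC : M ≤ (univ.filter C).card) :
    ∃ d : Fin (n + 1) → ℕ, (∀ v, 1 ≤ d v) ∧ (∀ v, d v + M ≤ n + 2) ∧
      ∀ e, ¬ C e → d (e + 1) = d e + 1 := by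
  have hex0 : ∃ e, C e := by
    have : 0 < (univ.filter C).card := by omega
    obtain ⟨e, he⟩ := card_pos.1 this
    exact ⟨e, (mem_filter.1 he).2⟩
  -- position of an edge
  let J : Fin (n + 1) → Fin (n + 1) → ℕ := fun i e => if i - e = 0 then n + 1 else (i - e).val
  have J1 : ∀ i e, 1 ≤ J i e := by
    intro i e
    simp only [J]
    split_ifs with h
    · omega
    · have : (i - e).val ≠ 0 := fun h' => h (Fin.ext h')
      omega
  have J2 : ∀ i e, J i e ≤ n + 1 := by
    intro i e
    simp only [J]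
    split_ifs with h
    · omega
    · exact (i - e).isLt.le
  have J3 : ∀ i e, i - ((J i e : ℕ) : Fin (n + 1)) = e := by
    intro i e
    simp only [J]
    split_ifs with h
    · rw [Fin.natCast_self, sub_zero]
      exact sub_eq_zero.1 h
    · rw [Fin.cast_val_eq_self, sub_sub_cancel]
  have hex : ∀ i : Fin (n + 1), ∃ j : ℕ, 1 ≤ j ∧ C (i - (j : Fin (n + 1))) := by
    intro i
    obtain ⟨e, he⟩ := hex0
    exact ⟨J i e, J1 i e, by rw [J3]; exact he⟩
  refine ⟨fun i => Nat.find (hex i), fun v => (Nat.find_spec (hex v)).1, fun v => ?_, fun e he => ?_⟩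
  · have hmap : (univ.filter C).card ≤ (Finset.Icc (Nat.find (hex v)) (n + 1)).card := by
      apply Finset.card_le_card_of_injOn (J v)
      · intro e he
        have he' : C e := (mem_filter.1 he).2
        rw [Finset.coe_Icc, Set.mem_Icc]
        exact ⟨Nat.find_min' (hex v) ⟨J1 v e, by rw [J3]; exact he'⟩, J2 v e⟩
      · intro e _ e' _ h
        have h1 := J3 v e
        have h2 := J3 v e'
        have h3 : J v e = J v e' := h
        rw [h3] at h1
        exact h1.symm.trans h2
    rw [Nat.card_Icc] at hmap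
    have h1 : 1 ≤ n + 1 + 1 - Nat.find (hex v) := hM.trans (hC.trans hmap)
    show Nat.find (hex v) + M ≤ n + 2
    omega
  · show Nat.find (hex (e + 1)) = Nat.find (hex e) + 1
    have hs := Nat.find_spec (hex e)
    apply le_antisymm
    · apply Nat.find_min'
      refine ⟨by omega, ?_⟩
      have : e + 1 - ((Nat.find (hex e) + 1 : ℕ) : Fin (n + 1)) =
          e - ((Nat.find (hex e) : ℕ) : Fin (n + 1)) := by
        push_cast
        rw [add_sub_add_right_eq_sub]
      rw [this]
      exact hs.2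
    · have hs' := Nat.find_spec (hex (e + 1))
      set j := Nat.find (hex (e + 1)) with hj
      have hj1 : j ≠ 1 := by
        intro h
        have h2 := hs'.2
        rw [h, Nat.cast_one, add_sub_cancel_right] at h2
        exact he h2
      obtain ⟨i, hi⟩ : ∃ i, j = i + 1 := ⟨j - 1, by have := hs'.1; omega⟩
      rw [hi] at hs' ⊢
      have h5 : Nat.find (hex e) ≤ i := by
        apply Nat.find_min'
        refine ⟨by omega, ?_⟩
        have h2 := hs'.2
        push_cast at h2
        rw [add_sub_add_right_eq_sub] at h2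
        exact h2
      omega

end Pool.Agent.W5h98.Cy
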