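import Pool.Agent.W5h98.Cy.Stage
import Pool.Agent.W5h98.Cy.Lab
import Pool.Agent.W5h98.Cy.Spec
import Pool.Agent.W5h98.Cy.Drift

/-!
# No coexistence on cycles
-/

set_option autoImplicit false

open Finset

namespace Pool.Agent.W5h98.Cy

open Pool.Agent.TH996.Urn

section
variable {V : Type} [Fintype V] {s : ℕ}

/-- a labelling cannot change exactly once around a cycle -/
theorem no_one (nx : Equiv.Perm V) (L : V → Fin s) (e0 : V)
    (h : ∀ e, e ≠ e0 → L (nx e) = L e) : L (nx e0) = L e0 := by
  classical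
  by_contra hne
  let u : V → ℤˣ := fun i => if L i = L e0 then 1 else -1
  have h1 : ∏ e, u e * u (nx e) = 1 := by
    rw [prod_mul_distrib, Equiv.prod_comp nx u]
    exact usq _
  have h2 : ∏ e, u e * u (nx e) = -1 := by
    rw [prod_eq_single e0]
    · simp only [u, if_true, if_neg hne, one_mul]
    · intro e _ he
      have : u (nx e) = u e := by simp only [u, h e he]
      rw [this]
      exact usq _
    · intro h'
      exact absurd (mem_univ _) h'
  rw [h1] at h2
  exact absurd h2 (by decide)

theorem const_of_ch_le_one (nx : Equiv.Perm V) (L : V → Fin s) (h : ch nx L ≤ 1) :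
    ∀ e, L (nx e) = L e := by
  classical
  intro e0
  by_contra hne
  apply hne
  apply no_one nx L e0
  intro e he
  by_contra h1
  unfold ch at h
  have h2 : dif (L e0) (L (nx e0)) + dif (L e) (L (nx e)) ≤ ∑ e, dif (L e) (L (nx e)) := by
    rw [← add_sum_erase univ _ (mem_univ e0)]
    apply Nat.add_le_add_left
    exact single_le_sum (f := fun e => dif (L e) (L (nx e))) (fun _ _ => Nat.zero_le _)
      (mem_erase.2 ⟨he, mem_univ e⟩)
  have h3 : dif (L e0) (L (nx e0)) = 1 := by
    unfold dif; rw [if_neg (fun h' => hne h'.symm)]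
  have h4 : dif (L e) (L (nx e)) = 1 := by
    unfold dif; rw [if_neg (fun h' => h1 h'.symm)]
  omega

theorem exists_lab {x : Config V s} (hx : Good x) : ∃ L, Lab x L := by
  classical
  obtain ⟨v0, c0, -⟩ := (total_pos_iff x).1 hx.2
  refine ⟨fun v => if h : ∃ c, 0 < x v c then h.choose else c0, fun v c hc => ?_⟩
  have h : ∃ c, 0 < x v c := ⟨c, hc⟩
  show (if h : ∃ c, 0 < x v c then h.choose else c0) = c
  rw [dif_pos h]
  exact hx.1 v _ _ h.choose_spec hc

end

variable {n s : ℕ}

/-- the successor on the cycle -/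
def nxt (n : ℕ) : Equiv.Perm (Fin (n + 1)) := Equiv.addRight 1

theorem nxt_apply (e : Fin (n + 1)) : nxt n e = e + 1 := rfl

/-- the signs of the edges: `a` on the edge from `last` to `0` -/
def twist (n : ℕ) (a : ℤˣ) (e : Fin (n + 1)) : ℤˣ := if e = Fin.last n then a else 1

theorem exists_sign (L : Fin (n + 1) → Fin s) :
    ∃ σ, Rel (nxt n) (twist n ((-1) ^ ch (nxt n) L)) L σ := by
  classical
  let g : Fin (n + 1) → ℤˣ := fun e => sg (L e) (L (nxt n e))
  have hall : ∏ e, g e = (-1) ^ ch (nxt n) L := by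
    simp only [g, sg_eq]
    rw [prod_pow_eq_pow_sum]
    rfl
  refine ⟨fun i => ∏ j ∈ univ.filter (fun j : Fin (n + 1) => j.val < i.val), g j, fun e => ?_⟩
  have hins : ∀ e : Fin (n + 1), ∏ j ∈ univ.filter (fun j : Fin (n + 1) => j.val < e.val + 1), g j =
      g e * ∏ j ∈ univ.filter (fun j : Fin (n + 1) => j.val < e.val), g j := by
    intro e
    have : univ.filter (fun j : Fin (n + 1) => j.val < e.val + 1) =
        insert e (univ.filter (fun j : Fin (n + 1) => j.val < e.val)) := by
      ext j
      simp only [mem_filter, mem_univ, true_and, mem_insert, Fin.ext_iff]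
      omega
    rw [this, prod_insert (by simp)]
  show ∏ j ∈ univ.filter (fun j : Fin (n + 1) => j.val < (nxt n e).val), g j =
    g e * twist n ((-1) ^ ch (nxt n) L) e *
      ∏ j ∈ univ.filter (fun j : Fin (n + 1) => j.val < e.val), g j
  by_cases he : e = Fin.last n
  · have h0 : nxt n e = 0 := by rw [nxt_apply, he, Fin.last_add_one]
    have h1 : univ.filter (fun j : Fin (n + 1) => j.val < (nxt n e).val) = ∅ := by
      rw [h0]; ext j; simp
    have h2 : ∏ j ∈ univ.filter (fun j : Fin (n + 1) => j.val < e.val + 1), g j =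
        (-1) ^ ch (nxt n) L := by
      rw [← hall]
      congr 1
      ext j
      simp only [mem_filter, mem_univ, true_and, iff_true]
      rw [he]
      exact j.isLt
    rw [hins] at h2
    rw [h1, prod_empty]
    unfold twist
    rw [if_pos he]
    calc (1 : ℤˣ) = (-1) ^ ch (nxt n) L * (-1) ^ ch (nxt n) L := (usq _).symm
      _ = (-1) ^ ch (nxt n) L * (g e *
          ∏ j ∈ univ.filter (fun j : Fin (n + 1) => j.val < e.val), g j) := by rw [h2]
      _ = _ := by ac_rfl
  · have h0 : (nxt n e).val = e.val + 1 := by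
      rw [nxt_apply]
      exact Fin.val_add_one_of_lt (lt_of_le_of_ne (Fin.le_last e) he)
    rw [h0, hins]
    unfold twist
    rw [if_neg he, mul_one]

/-- the wave -/
noncomputable def wave (n : ℕ) (z : ℂ) (i : Fin (n + 1)) : ℂ := z ^ i.val

theorem wave_rel {z : ℂ} {a : ℤˣ} (hz : z ^ (n + 1) = ((a : ℤ) : ℂ)) (e : Fin (n + 1)) :
    (((twist n a e : ℤ) : ℝ) : ℂ) * wave n z (nxt n e) = z * wave n z e := by
  unfold wave twist
  by_cases he : e = Fin.last n
  · have h0 : nxt n e = 0 := by rw [nxt_apply, he, Fin.last_add_one]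
    rw [if_pos he, h0, he, Fin.val_last, ← pow_succ', hz]
    simp
  · have h0 : (nxt n e).val = e.val + 1 := by
      rw [nxt_apply]
      exact Fin.val_add_one_of_lt (lt_of_le_of_ne (Fin.le_last e) he)
    rw [if_neg he, h0, pow_succ']
    simp

end Pool.Agent.W5h98.Cy
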