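import Pool.Agent.TH996.Urn.Crit

/-!
# A Lyapunov criterion in stages

Let `B` be a set of configurations which is closed under the dynamics, and `A` a set of
configurations from which there is almost surely no coexistence. If a nonnegative function has
drift at most `- c / N` on `B \ A` then there is almost surely no coexistence from `B`.
-/

set_option autoImplicit false

open Finset Filter Topology

namespace Pool.Agent.W5h98.Cy

open Pool.Agent.TH996.Urn

variable {V : Type} [Fintype V] {s : ℕ}

theorem stage_round (G : SimpleGraph V) (hG : G.Connected) (A B : Config V s → Prop)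
    (hB : ∀ x, Good x → B x → ∀ v c, 0 < x v c → B (step G x v c))
    (hA : ∀ x, Good x → A x → hlim G x = 0) (f : Config V s → ℝ)
    (hf : ∀ x, 0 ≤ f x) (c : ℝ) (hc : 0 < c) (N₀ : ℕ)
    (h : ∀ x : Config V s, Good x → B x → ¬ A x → N₀ ≤ total x →
      Pop G f x ≤ f x - c / (total x : ℝ)) :
    ∃ δ : ℝ, 0 < δ ∧ δ < 1 ∧ ∀ M : ℝ, 0 ≤ M →
      (∀ x : Config V s, Good x → B x → hlim G x ≤ M) →
      ∀ x : Config V s, Good x → B x → hlim G x ≤ (1 - δ) * M := by
  classical
  obtain ⟨δ, hδ, hδ1, T, hT⟩ := small_N (s := s) G hG N₀
  refine ⟨δ, hδ, hδ1, fun M hM0 hM x hx hBx => ?_⟩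
  have hδM : 0 ≤ (1 - δ) * M := mul_nonneg (by linarith) hM0
  have hM' : ∀ x : Config V s, Good x → B x → hlim G x ≤ M * nm x := by
    intro x hx hBx
    by_cases ha : AllMono x
    · rw [crit_hlim_mono G ha]
      exact mul_nonneg hM0 (nm_nonneg x)
    · unfold nm
      rw [if_neg ha, mul_one]
      exact hM x hx hBx
  have hsmall : ∀ x : Config V s, Good x → B x → total x ≤ N₀ → hlim G x ≤ (1 - δ) * M := by
    intro x hx hBx hN
    have h1 := hlim_le_iter G B (fun x hg hb v c hv => hB x hg hb v c hv) hM' T x hx hBx
    have h2 := hT x hx.1 hx.2 hN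
    nlinarith
  have main : ∀ t : ℕ, ∀ x : Config V s, Good x → B x →
      (hlim G x - (1 - δ) * M) * critS c (Fintype.card V) t (total x) ≤ M * f x := by
    intro t
    induction t with
    | zero =>
      intro x _ _
      have : critS c (Fintype.card V) 0 (total x) = 0 := by simp [critS]
      rw [this, mul_zero]
      exact mul_nonneg hM0 (hf _)
    | succ t ih =>
      intro x hx hBx
      have hrhs : 0 ≤ M * f x := mul_nonneg hM0 (hf _)
      have hSn := critS_nonneg hc.le (Fintype.card V) (t + 1) (total x)
      by_cases ha : A x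
      · rw [hA x hx ha]
        nlinarith
      rcases Nat.lt_or_ge N₀ (total x) with hN | hN
      swap
      · have := hsmall x hx hBx hN
        nlinarith
      have hNpos : 0 < total x := hx.2
      rw [critS_succ]
      set w : Config V s → ℝ := fun y => hlim G y - (1 - δ) * M with hw
      have hw1 : w x ≤ M := by
        have h1 := hM x hx hBx
        simp only [hw]; linarith
      have hwP : Pop G w x = w x := by
        have h1 := hlim_harmonic G hx
        have h2 := Pop_const G ((1 - δ) * M) hx.2
        unfold Pop at h1 h2 ⊢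
        simp only [hw, mul_sub, Finset.sum_sub_distrib]
        rw [h1, h2]
      have hdr := h x hx hBx ha hN.le
      have hterm : Pop G (fun y => w y * critS c (Fintype.card V) t
          (total x + Fintype.card V)) x ≤ Pop G (fun y => M * f y) x := by
        refine Pop_le G (fun v c' h0 => ?_)
        have hgood := step_good G hx h0
        have h6 := ih _ hgood (hB x hx hBx v c' h0)
        have hr : 0 ≤ M * f (step G x v c') := mul_nonneg hM0 (hf _)
        have hSn' := critS_nonneg hc.le (Fintype.card V) t (total x + Fintype.card V)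
        rcases le_or_gt (w (step G x v c')) 0 with hwn | hwp
        · nlinarith
        · refine le_trans ?_ h6
          apply mul_le_mul_of_nonneg_left _ hwp.le
          exact critS_anti hc.le _ t (small_total_step G x v c') hgood.2
      have hcomm : Pop G (fun y => w y * critS c (Fintype.card V) t
          (total x + Fintype.card V)) x = w x * critS c (Fintype.card V) t
          (total x + Fintype.card V) := by
        have h7 := Pop_mul G (critS c (Fintype.card V) t (total x + Fintype.card V)) w x
        rw [hwP, mul_comm] at h7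
        rw [← h7]
        congr 1
        funext y
        ring
      rw [hcomm, Pop_mul] at hterm
      have hNr : (0 : ℝ) < total x := by exact_mod_cast hNpos
      have hcN : 0 < c / (total x : ℝ) := by positivity
      have e1 : w x * (c / (total x : ℝ)) ≤ M * (c / (total x : ℝ)) :=
        mul_le_mul_of_nonneg_right hw1 hcN.le
      have e2 : M * Pop G f x ≤ M * (f x - c / (total x : ℝ)) :=
        mul_le_mul_of_nonneg_left hdr hM0
      show w x * (c / (total x : ℝ) + critS c (Fintype.card V) t
        (total x + Fintype.card V)) ≤ _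
      nlinarith
  -- conclusion
  by_contra hcon
  push Not at hcon
  have hpos : 0 < hlim G x - (1 - δ) * M := by linarith
  have ht := (critS_tendsto hc (Fintype.card V) hx.2).const_mul_atTop hpos
  have hev := (tendsto_atTop.1 ht) (M * f x + 1)
  obtain ⟨t, hev⟩ := hev.exists
  have := main t x hx hBx
  linarith

/-- no coexistence from the configurations in `B` -/
theorem stage (G : SimpleGraph V) (hG : G.Connected) (A B : Config V s → Prop)
    (hB : ∀ x, Good x → B x → ∀ v c, 0 < x v c → B (step G x v c))
    (hA : ∀ x, Good x → A x → hlim G x = 0) (f : Config V s → ℝ)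
    (hf : ∀ x, 0 ≤ f x) (c : ℝ) (hc : 0 < c) (N₀ : ℕ)
    (h : ∀ x : Config V s, Good x → B x → ¬ A x → N₀ ≤ total x →
      Pop G f x ≤ f x - c / (total x : ℝ)) :
    ∀ x : Config V s, Good x → B x → hlim G x = 0 := by
  obtain ⟨δ, hδ, hδ1, hround⟩ := stage_round G hG A B hB hA f hf c hc N₀ h
  have key : ∀ j : ℕ, ∀ x : Config V s, Good x → B x → hlim G x ≤ (1 - δ) ^ j := by
    intro j
    induction j with
    | zero =>
      intro x _ _
      rw [pow_zero]
      exact (hlim_le_nm _ x).trans (nm_le_one x)
    | succ j ihj =>
      intro x hx hBx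
      rw [pow_succ, mul_comm]
      exact hround ((1 - δ) ^ j) (pow_nonneg (by linarith) j) ihj x hx hBx
  intro x hx hBx
  have h1 : Tendsto (fun j : ℕ => (1 - δ) ^ j) atTop (𝓝 0) :=
    tendsto_pow_atTop_nhds_zero_of_lt_one (by linarith) (by linarith)
  exact le_antisymm (ge_of_tendsto' h1 (fun j => key j x hx hBx)) (hlim_nonneg _ x)

/-- conclusion -/
theorem inClass_of_hlim (G : SimpleGraph V) (h : ∀ x : Config V s, Good x → hlim G x = 0) :
    InClass G s := by
  intro x₀ hx₀ h0 Ω _ P _ X hX
  have h2 := hlim_tendsto G (x := x₀) ⟨hx₀, h0⟩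
  rw [h x₀ ⟨hx₀, h0⟩] at h2
  exact wrap _ x₀ hx₀ h0 h2 P X hX

end Pool.Agent.W5h98.Cy
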